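import Mathlib

set_option autoImplicit false

open MeasureTheory Set Measure
open scoped ENNReal

namespace Pool.Agent.Lib.MP_5f557b_an

variable {X : Type*} [MeasurableSpace X]

/-- prepend a letter to a sequence -/
def cons (p : X × (ℕ → X)) : ℕ → X := fun n => Nat.casesOn n p.1 p.2

omit [MeasurableSpace X] in
@[simp] lemma cons_zero (p : X × (ℕ → X)) : cons p 0 = p.1 := rfl
omit [MeasurableSpace X] in
@[simp] lemma cons_succ (p : X × (ℕ → X)) (n : ℕ) : cons p (n + 1) = p.2 n := rfl

lemma measurable_cons : Measurable (cons : X × (ℕ → X) → (ℕ → X)) := by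
  refine measurable_pi_lambda _ fun n => ?_
  cases n with
  | zero => exact measurable_fst
  | succ n => exact (measurable_pi_apply n).comp measurable_snd

/-- shift -/
def shift (w : ℕ → X) : ℕ → X := fun n => w (n + 1)

omit [MeasurableSpace X] in
@[simp] lemma shift_apply (w : ℕ → X) (n : ℕ) : shift w n = w (n + 1) := rfl

omit [MeasurableSpace X] in
@[simp] lemma shift_cons (p : X × (ℕ → X)) : shift (cons p) = p.2 := rfl

lemma measurable_shift : Measurable (shift : (ℕ → X) → (ℕ → X)) :=
  measurable_pi_lambda _ fun n => measurable_pi_apply (n + 1)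

lemma map_cons (u : Measure X) [IsProbabilityMeasure u] :
    (u.prod (infinitePi fun _ : ℕ => u)).map cons = infinitePi fun _ : ℕ => u := by
  refine eq_infinitePi _ fun s t ht => ?_
  classical
  set P : Measure (ℕ → X) := infinitePi fun _ : ℕ => u with hP
  set s' : Finset ℕ := (s.filter (fun n => n ≠ 0)).image Nat.pred with hs'
  have hpre : cons ⁻¹' (Set.pi (s : Set ℕ) t) =
      (if 0 ∈ s then t 0 else univ) ×ˢ (Set.pi (s' : Set ℕ) fun n => t (n + 1)) := by
    ext ⟨a, w⟩
    simp only [mem_preimage, Set.mem_pi, Finset.mem_coe, mem_prod]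
    constructor
    · intro h
      refine ⟨?_, ?_⟩
      · split_ifs with h0
        · exact h 0 h0
        · trivial
      · intro n hn
        rw [hs'] at hn
        simp only [Finset.mem_image, Finset.mem_filter] at hn
        obtain ⟨m, ⟨hm, hm0⟩, rfl⟩ := hn
        obtain ⟨k, rfl⟩ := Nat.exists_eq_succ_of_ne_zero hm0
        exact h (k + 1) hm
    · rintro ⟨h0, h1⟩ n hn
      cases n with
      | zero => simpa [hn] using h0
      | succ n =>
        apply h1 n
        rw [hs']
        simp only [Finset.mem_image, Finset.mem_filter]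
        exact ⟨n + 1, ⟨hn, by simp⟩, rfl⟩
  have hmeas : MeasurableSet (Set.pi (s : Set ℕ) t) :=
    MeasurableSet.pi s.countable_toSet fun i _ => ht i
  rw [Measure.map_apply measurable_cons hmeas, hpre, Measure.prod_prod]
  have h2 : P (Set.pi (s' : Set ℕ) fun n => t (n + 1)) = ∏ n ∈ s', u (t (n + 1)) :=
    infinitePi_pi _ fun i _ => ht _
  rw [h2]
  have h3 : ∏ n ∈ s', u (t (n + 1)) = ∏ n ∈ s.filter (fun n => n ≠ 0), u (t n) := by
    rw [hs', Finset.prod_image]
    · refine Finset.prod_congr rfl fun n hn => ?_
      have : n ≠ 0 := (Finset.mem_filter.mp hn).2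
      obtain ⟨k, rfl⟩ := Nat.exists_eq_succ_of_ne_zero this
      rfl
    · intro a ha b hb hab
      have ha0 : a ≠ 0 := (Finset.mem_filter.mp ha).2
      have hb0 : b ≠ 0 := (Finset.mem_filter.mp hb).2
      have : a.pred = b.pred := hab
      simp only [Nat.pred_eq_sub_one] at this
      omega
  rw [h3]
  by_cases h0 : 0 ∈ s
  · rw [if_pos h0]
    have : s = insert 0 (s.filter fun n => n ≠ 0) := by
      ext n
      simp only [Finset.mem_insert, Finset.mem_filter]
      constructor
      · intro hn
        by_cases h : n = 0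
        · exact Or.inl h
        · exact Or.inr ⟨hn, h⟩
      · rintro (rfl | h)
        · exact h0
        · exact h.1
    conv_rhs => rw [this]
    rw [Finset.prod_insert (by simp)]
  · rw [if_neg h0, measure_univ, one_mul]
    have : s.filter (fun n => n ≠ 0) = s := by
      apply Finset.filter_true_of_mem
      intro n hn h
      exact h0 (h ▸ hn)
    rw [this]

lemma measurePreserving_cons (u : Measure X) [IsProbabilityMeasure u] :
    MeasurePreserving cons (u.prod (infinitePi fun _ : ℕ => u)) (infinitePi fun _ : ℕ => u) :=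
  ⟨measurable_cons, map_cons u⟩

lemma measurePreserving_shift (u : Measure X) [IsProbabilityMeasure u] :
    MeasurePreserving shift (infinitePi fun _ : ℕ => u) (infinitePi fun _ : ℕ => u) := by
  refine ⟨measurable_shift, ?_⟩
  conv_lhs => rw [← map_cons u]
  rw [Measure.map_map measurable_shift measurable_cons]
  have : (shift ∘ cons : X × (ℕ → X) → (ℕ → X)) = Prod.snd := by
    funext p; rfl
  rw [this, ← Measure.snd, Measure.snd_prod]

end Pool.Agent.Lib.MP_5f557b_an
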