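import Mathlib
import Pool.Agent.Lib.MP_5f557b_an.Shift

set_option autoImplicit false

open MeasureTheory Set Filter
open scoped ENNReal Topology

namespace Pool.Agent.Lib.MP_5f557b_an

/-- A digit system: digits `x s + y s'` forming a complete residue system modulo `n`, with small
carries and a synchronising digit. -/
structure Sys (ι X : Type*) [Fintype ι] [Fintype X] where
  n : ι → ℕ
  x : X → ι → ℤ
  y : X → ι → ℤ
  hn : ∀ i, 4 ≤ n i
  lo : ∀ s s' i, 0 ≤ x s i + y s' i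
  hi : ∀ s s' i, x s i + y s' i ≤ n i
  inj : ∀ s1 s1' s2 s2', (∀ i, (n i : ℤ) ∣ (x s1 i + y s1' i) - (x s2 i + y s2' i)) →
    s1 = s2 ∧ s1' = s2'
  card : (Fintype.card X) ^ 2 = ∏ i, n i
  sync : ∃ s s', ∀ i, x s i + y s' i = 2

namespace Sys

variable {ι X : Type*} [Fintype ι] [Fintype X] (D : Sys ι X)

/-- the digit formed by the first two letters -/
def dig (w : ℕ → X) (i : ι) : ℤ := D.x (w 0) i + D.y (w 1) i

lemma dig_nonneg (w : ℕ → X) (i : ι) : (0 : ℝ) ≤ (D.dig w i : ℝ) := by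
  exact_mod_cast D.lo _ _ i

lemma dig_le (w : ℕ → X) (i : ι) : (D.dig w i : ℝ) ≤ (D.n i : ℝ) := by
  exact_mod_cast D.hi _ _ i

/-- two-step shift iterated -/
def sh (m : ℕ) (w : ℕ → X) : ℕ → X := fun j => w (2 * m + j)

omit [Fintype X] in
lemma sh_zero (w : ℕ → X) : sh 0 w = w := by
  funext j; simp [sh]

omit [Fintype X] in
lemma sh_succ (m : ℕ) (w : ℕ → X) : sh (m + 1) w = sh m (sh 1 w) := by
  funext j
  simp only [sh]
  congr 1
  ring

omit [Fintype X] in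
lemma sh_succ' (m : ℕ) (w : ℕ → X) : sh (m + 1) w = sh 1 (sh m w) := by
  funext j
  simp only [sh]
  congr 1
  ring

/-- the point of the tile coded by `w` -/
noncomputable def W (w : ℕ → X) (i : ι) : ℝ :=
  ∑' m : ℕ, (D.dig (sh m w) i : ℝ) / (D.n i : ℝ) ^ (m + 1)

lemma n_ge (i : ι) : (4 : ℝ) ≤ D.n i := by exact_mod_cast D.hn i

lemma n_pos (i : ι) : (0 : ℝ) < D.n i := by linarith [D.n_ge i]

lemma inv_lt_one (i : ι) : (1 / (D.n i : ℝ)) < 1 := by
  rw [div_lt_one (D.n_pos i)]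
  linarith [D.n_ge i]

lemma geom (i : ι) : HasSum (fun m : ℕ => (1 / (D.n i : ℝ)) ^ m) (1 - 1 / (D.n i : ℝ))⁻¹ :=
  hasSum_geometric_of_lt_one (by have := D.n_pos i; positivity) (D.inv_lt_one i)

lemma term_le (w : ℕ → X) (i : ι) (m : ℕ) :
    (D.dig (sh m w) i : ℝ) / (D.n i : ℝ) ^ (m + 1) ≤ (1 / (D.n i : ℝ)) ^ m := by
  have h0 := D.n_pos i
  rw [one_div, inv_pow, div_le_iff₀ (by positivity), pow_succ]
  have h1 : ((D.n i : ℝ) ^ m)⁻¹ * ((D.n i : ℝ) ^ m * (D.n i : ℝ)) = D.n i := by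
    field_simp
  rw [h1]
  exact D.dig_le _ i

lemma term_nonneg (w : ℕ → X) (i : ι) (m : ℕ) :
    0 ≤ (D.dig (sh m w) i : ℝ) / (D.n i : ℝ) ^ (m + 1) :=
  div_nonneg (D.dig_nonneg _ i) (by have := D.n_pos i; positivity)

lemma summable (w : ℕ → X) (i : ι) :
    Summable fun m : ℕ => (D.dig (sh m w) i : ℝ) / (D.n i : ℝ) ^ (m + 1) :=
  Summable.of_nonneg_of_le (D.term_nonneg w i) (D.term_le w i) (D.geom i).summable

lemma W_nonneg (w : ℕ → X) (i : ι) : 0 ≤ D.W w i := tsum_nonneg (D.term_nonneg w i)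

lemma W_le (w : ℕ → X) (i : ι) : D.W w i ≤ (D.n i : ℝ) / ((D.n i : ℝ) - 1) := by
  have h := (D.summable w i).tsum_le_tsum (D.term_le w i) (D.geom i).summable
  rw [(D.geom i).tsum_eq] at h
  refine h.trans (le_of_eq ?_)
  have h1 := D.n_ge i
  have h2 : (D.n i : ℝ) ≠ 0 := (D.n_pos i).ne'
  have h3 : (D.n i : ℝ) - 1 ≠ 0 := by linarith
  field_simp

lemma W_rec (w : ℕ → X) (i : ι) :
    (D.n i : ℝ) * D.W w i = D.dig w i + D.W (sh 1 w) i := by
  have h0 : (D.n i : ℝ) ≠ 0 := (D.n_pos i).ne'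
  have h := (D.summable w i).tsum_eq_zero_add
  have h1 : ∑' m : ℕ, (D.dig (sh (m + 1) w) i : ℝ) / (D.n i : ℝ) ^ (m + 1 + 1) =
      (D.W (sh 1 w) i) / D.n i := by
    rw [W, ← tsum_div_const]
    refine tsum_congr fun m => ?_
    rw [sh_succ, pow_succ (D.n i : ℝ) (m + 1), div_div]
  have h2 : D.W w i = (D.dig w i : ℝ) / D.n i + (D.W (sh 1 w) i) / D.n i := by
    rw [← h1]
    conv_lhs => rw [W, h]
    simp [sh_zero]
  rw [h2]
  field_simp

/-- integer difference in every coordinate -/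
def IntDiff (w w' : ℕ → X) : Prop := ∀ i, ∃ k : ℤ, D.W w i - D.W w' i = k

lemma IntDiff.shift {w w' : ℕ → X} (h : D.IntDiff w w') : D.IntDiff (sh 1 w) (sh 1 w') := by
  intro i
  obtain ⟨k, hk⟩ := h i
  refine ⟨(D.n i : ℤ) * k - (D.dig w i - D.dig w' i), ?_⟩
  have h1 := D.W_rec w i
  have h2 := D.W_rec w' i
  push_cast
  rw [← hk]
  linarith

lemma IntDiff.iter {w w' : ℕ → X} (h : D.IntDiff w w') (m : ℕ) : D.IntDiff (sh m w) (sh m w') := by
  induction m with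
  | zero => simpa [sh_zero] using h
  | succ m ih =>
    rw [sh_succ' m w, sh_succ' m w']
    exact ih.shift

/-- one synchronising digit forces equality of the codes modulo nothing -/
lemma sync_eq {w w' : ℕ → X} (h : D.IntDiff w w') (hs : ∀ i, D.dig w i = 2) :
    ∀ i, D.W w i = D.W w' i := by
  intro i
  obtain ⟨k, hk⟩ := h i
  have h4 := D.n_ge i
  have h1 := D.W_rec w i
  rw [hs i] at h1
  push_cast at h1
  have hw0 := D.W_nonneg (sh 1 w) i
  have hw1 := D.W_le (sh 1 w) i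
  have hw0' := D.W_nonneg w' i
  have hw1' := D.W_le w' i
  have hfrac : (D.n i : ℝ) / ((D.n i : ℝ) - 1) = 1 + 1 / ((D.n i : ℝ) - 1) := by
    have : (D.n i : ℝ) - 1 ≠ 0 := by linarith
    field_simp
    ring
  have hfrac2 : 1 / ((D.n i : ℝ) - 1) ≤ 1 / 3 := by
    apply one_div_le_one_div_of_le <;> linarith
  have hfrac3 : 1 / ((D.n i : ℝ) - 1) < 2 / (D.n i : ℝ) := by
    rw [div_lt_div_iff₀ (by linarith) (by linarith)]
    linarith
  -- lower bound of W w
  have hlow : 2 / (D.n i : ℝ) ≤ D.W w i := by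
    rw [div_le_iff₀ (by linarith)]
    linarith
  have hup : D.W w i < 1 := by
    by_contra hge
    push Not at hge
    nlinarith
  have hk1 : (k : ℝ) < 1 := by rw [← hk]; linarith
  have hk2 : (-1 : ℝ) < (k : ℝ) := by rw [← hk]; linarith
  have hk0 : k = 0 := by
    have a1 : k < 1 := by exact_mod_cast hk1
    have a2 : -1 < k := by exact_mod_cast hk2
    omega
  rw [hk0] at hk
  push_cast at hk
  linarith

lemma back {w w' : ℕ → X} (h : D.IntDiff w w') (hs : ∀ i, D.W (sh 1 w) i = D.W (sh 1 w') i) :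
    (∀ i, D.W w i = D.W w' i) ∧ w 0 = w' 0 ∧ w 1 = w' 1 := by
  have hdiv : ∀ i, (D.n i : ℤ) ∣ D.dig w i - D.dig w' i := by
    intro i
    obtain ⟨k, hk⟩ := h i
    refine ⟨k, ?_⟩
    have h1 := D.W_rec w i
    have h2 := D.W_rec w' i
    have h3 : ((D.dig w i - D.dig w' i : ℤ) : ℝ) = (((D.n i : ℤ) * k : ℤ) : ℝ) := by
      push_cast
      rw [← hk]
      linarith [hs i]
    exact_mod_cast h3
  obtain ⟨h0, h1⟩ := D.inj (w 0) (w 1) (w' 0) (w' 1) hdiv
  refine ⟨?_, h0, h1⟩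
  intro i
  have h2 := D.W_rec w i
  have h3 := D.W_rec w' i
  have h4 : D.dig w i = D.dig w' i := by simp [dig, h0, h1]
  have h5 := D.n_pos i
  have h6 : (D.n i : ℝ) * D.W w i = (D.n i : ℝ) * D.W w' i := by
    rw [h2, h3, h4, hs i]
  exact mul_left_cancel₀ h5.ne' h6

lemma back_iter (m : ℕ) : ∀ w w' : ℕ → X, D.IntDiff w w' →
    (∀ i, D.W (sh m w) i = D.W (sh m w') i) →
    (∀ i, D.W w i = D.W w' i) ∧ ∀ j < 2 * m, w j = w' j := by
  induction m with
  | zero =>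
    intro w w' _ h
    refine ⟨by simpa [sh_zero] using h, by simp⟩
  | succ m ih =>
    intro w w' hd h
    rw [sh_succ m w, sh_succ m w'] at h
    obtain ⟨h1, h2⟩ := ih (sh 1 w) (sh 1 w') hd.shift h
    obtain ⟨h3, h4, h5⟩ := D.back hd h1
    refine ⟨h3, fun j hj => ?_⟩
    rcases j with _ | _ | j
    · exact h4
    · exact h5
    · have := h2 j (by omega)
      simp only [sh] at this
      have e : 2 * 1 + j = j + 1 + 1 := by ring
      rwa [e] at this

/-- infinitely many synchronising digits -/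
def Good (w : ℕ → X) : Prop := ∃ᶠ m in atTop, ∀ i, D.dig (sh m w) i = 2

lemma eq_of_intDiff {w w' : ℕ → X} (hg : D.Good w) (h : D.IntDiff w w') : w = w' := by
  funext j
  obtain ⟨m, hm, hj⟩ := (hg.and_eventually (eventually_gt_atTop j)).exists
  have h1 := D.sync_eq (IntDiff.iter D h m) hm
  exact (D.back_iter m w w' h h1).2 j (by omega)

end Sys

end Pool.Agent.Lib.MP_5f557b_an
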