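import Mathlib
import Pool.Agent.Lib.MP_5f557b_an.Digits

set_option autoImplicit false
set_option linter.unusedSectionVars false

open MeasureTheory Set Filter Measure
open scoped ENNReal Topology

namespace Pool.Agent.Lib.MP_5f557b_an

section uniform

variable (X : Type*) [Fintype X] [Nonempty X] [MeasurableSpace X] [MeasurableSingletonClass X]

/-- uniform probability measure on a finite set -/
noncomputable def unif : Measure X := (Fintype.card X : ℝ≥0∞)⁻¹ • Measure.count

instance : IsProbabilityMeasure (unif X) := by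
  constructor
  rw [unif, Measure.smul_apply, Measure.count_univ, smul_eq_mul]
  simp only [ENat.card_eq_coe_fintype_card, ENat.toENNReal_coe]
  exact ENNReal.inv_mul_cancel (by exact_mod_cast Fintype.card_ne_zero) (ENNReal.natCast_ne_top _)

lemma lintegral_unif (f : X → ℝ≥0∞) :
    ∫⁻ a, f a ∂(unif X) = (Fintype.card X : ℝ≥0∞)⁻¹ * ∑ a, f a := by
  rw [unif, lintegral_smul_measure, lintegral_count, tsum_fintype, smul_eq_mul]

lemma integral_unif (f : X → ℂ) :
    ∫ a, f a ∂(unif X) = (Fintype.card X : ℂ)⁻¹ * ∑ a, f a := by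
  rw [integral_fintype (Integrable.of_finite)]
  rw [Finset.mul_sum]
  refine Finset.sum_congr rfl fun a _ => ?_
  have : (unif X).real {a} = (Fintype.card X : ℝ)⁻¹ := by
    rw [Measure.real, unif, Measure.smul_apply, Measure.count_singleton]
    simp
  rw [this]
  simp

/-- Bernoulli measure -/
noncomputable def bern : Measure (ℕ → X) := infinitePi fun _ : ℕ => unif X

instance : IsProbabilityMeasure (bern X) := by
  unfold bern; infer_instance

lemma bern_map_cons : ((unif X).prod (bern X)).map cons = bern X := map_cons (unif X)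

lemma bern_shift : MeasurePreserving shift (bern X) (bern X) := measurePreserving_shift (unif X)

variable {X}

lemma integral_cons (F : (ℕ → X) → ℂ) (hF : Integrable F (bern X)) :
    ∫ w, F w ∂(bern X) = (Fintype.card X : ℂ)⁻¹ * ∑ s, ∫ w, F (cons (s, w)) ∂(bern X) := by
  have h1 : Integrable F (((unif X).prod (bern X)).map cons) := by rwa [bern_map_cons]
  have h2 : Integrable (fun p => F (cons p)) ((unif X).prod (bern X)) :=
    (integrable_map_measure h1.aestronglyMeasurable measurable_cons.aemeasurable).mp h1
  conv_lhs => rw [← bern_map_cons X]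
  rw [integral_map measurable_cons.aemeasurable h1.aestronglyMeasurable, integral_prod _ h2,
    integral_unif]

lemma map_cons_apply {A : Set (ℕ → X)} (hA : MeasurableSet A) :
    bern X A = (Fintype.card X : ℝ≥0∞)⁻¹ * ∑ s, bern X {w | cons (s, w) ∈ A} := by
  conv_lhs => rw [← bern_map_cons X]
  rw [Measure.map_apply measurable_cons hA, Measure.prod_apply (measurable_cons hA),
    lintegral_unif]
  rfl

end uniform

namespace Sys

variable {ι X : Type*} [Fintype ι] [Fintype X] (D : Sys ι X)
variable [MeasurableSpace X] [MeasurableSingletonClass X]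

lemma measurable_dig (m : ℕ) (i : ι) : Measurable fun w : ℕ → X => (D.dig (sh m w) i : ℝ) := by
  have h1 : Measurable fun w : ℕ → X => (D.x (w (2 * m + 0)) i : ℝ) :=
    (Measurable.of_discrete (f := fun s : X => (D.x s i : ℝ))).comp (measurable_pi_apply _)
  have h2 : Measurable fun w : ℕ → X => (D.y (w (2 * m + 1)) i : ℝ) :=
    (Measurable.of_discrete (f := fun s : X => (D.y s i : ℝ))).comp (measurable_pi_apply _)
  have h3 : (fun w : ℕ → X => (D.dig (sh m w) i : ℝ)) =
      fun w => (D.x (w (2 * m + 0)) i : ℝ) + (D.y (w (2 * m + 1)) i : ℝ) := by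
    funext w
    simp [dig, sh]
  rw [h3]
  exact h1.add h2

lemma measurable_W (i : ι) : Measurable fun w : ℕ → X => D.W w i := by
  refine measurable_of_tendsto_metrizable (f := fun N w => ∑ m ∈ Finset.range N,
    (D.dig (sh m w) i : ℝ) / (D.n i : ℝ) ^ (m + 1)) (fun N => ?_) ?_
  · exact Finset.measurable_sum _ fun m _ => (D.measurable_dig m i).div_const _
  · rw [tendsto_pi_nhds]
    intro w
    exact (D.summable w i).hasSum.tendsto_sum_nat

/-- the point of the support coded by `w` -/
noncomputable def Z (w : ℕ → X) : (ι → ℝ) × (ι → ℝ) :=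
  (fun i => (D.y (w 0) i : ℝ) + D.W (shift w) i, fun i => D.W w i)

lemma measurable_Z : Measurable D.Z := by
  refine Measurable.prodMk (measurable_pi_lambda _ fun i => ?_)
    (measurable_pi_lambda _ fun i => D.measurable_W i)
  refine Measurable.add ?_ ((D.measurable_W i).comp measurable_shift)
  exact (Measurable.of_discrete (f := fun s : X => (D.y s i : ℝ))).comp (measurable_pi_apply 0)

/-- the maps of the iterated function system -/
noncomputable def step (s : X) (z : (ι → ℝ) × (ι → ℝ)) : (ι → ℝ) × (ι → ℝ) :=
  (fun i => z.2 i + (D.y s i : ℝ), fun i => (z.1 i + (D.x s i : ℝ)) / (D.n i : ℝ))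

lemma measurable_step (s : X) : Measurable (D.step s) := by
  unfold step
  fun_prop

lemma W_cons (s : X) (w : ℕ → X) (i : ι) :
    D.W (cons (s, w)) i = ((D.y (w 0) i : ℝ) + D.W (shift w) i + (D.x s i : ℝ)) / (D.n i : ℝ) := by
  have h := D.W_rec (cons (s, w)) i
  have h1 : sh 1 (cons (s, w)) = shift w := by
    funext j
    have e : 2 * 1 + j = j + 1 + 1 := by ring
    simp only [sh, e, cons_succ, shift_apply]
  have h2 : (D.dig (cons (s, w)) i : ℝ) = D.x s i + D.y (w 0) i := by
    simp only [dig]
    have e : (1 : ℕ) = 0 + 1 := rfl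
    rw [e, cons_succ, cons_zero]
    push_cast
    ring
  rw [h1, h2] at h
  rw [eq_div_iff (D.n_pos i).ne']
  linarith

lemma Z_cons (s : X) (w : ℕ → X) : D.Z (cons (s, w)) = D.step s (D.Z w) := by
  refine Prod.ext ?_ ?_
  · funext i
    simp only [Z, step, cons_zero, shift_cons]
    ring
  · funext i
    simp only [Z, step]
    rw [D.W_cons s w i]

variable [Nonempty X]

/-- the self-affine measure -/
noncomputable def mu : Measure ((ι → ℝ) × (ι → ℝ)) := (bern X).map D.Z

instance : IsProbabilityMeasure D.mu := by
  unfold mu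
  exact Measure.isProbabilityMeasure_map D.measurable_Z.aemeasurable

lemma mu_selfaffine :
    D.mu = (Fintype.card X : ℝ≥0∞)⁻¹ • ∑ s, D.mu.map (D.step s) := by
  ext A hA
  rw [Measure.smul_apply, Measure.finsetSum_apply, smul_eq_mul]
  rw [mu, Measure.map_apply D.measurable_Z hA, map_cons_apply (D.measurable_Z hA)]
  congr 1
  refine Finset.sum_congr rfl fun s _ => ?_
  rw [Measure.map_apply (D.measurable_step s) hA,
    Measure.map_apply D.measurable_Z (D.measurable_step s hA)]
  congr 1
  ext w
  simp only [mem_ofPred_eq, mem_preimage]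
  rw [D.Z_cons]

end Sys

end Pool.Agent.Lib.MP_5f557b_an
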