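import Mathlib
import Pool.Agent.Lib.MP_5f557b_an.Meas

set_option autoImplicit false
set_option linter.unusedSectionVars false

open MeasureTheory Set Filter Measure
open scoped ENNReal Topology

namespace Pool.Agent.Lib.MP_5f557b_an

/-- `exp (2 π i t)` -/
noncomputable def ee (t : ℝ) : ℂ := Complex.exp (2 * Real.pi * Complex.I * (t : ℂ))

lemma ee_add (s t : ℝ) : ee (s + t) = ee s * ee t := by
  rw [ee, ee, ee, ← Complex.exp_add]
  congr 1
  push_cast
  ring

lemma ee_zero : ee 0 = 1 := by simp [ee]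

lemma ee_int (k : ℤ) : ee (k : ℝ) = 1 := by
  rw [ee, Complex.exp_eq_one_iff]
  exact ⟨k, by push_cast; ring⟩

lemma norm_ee (t : ℝ) : ‖ee t‖ = 1 := by
  have : (2 * Real.pi * Complex.I * (t : ℂ)) = ((2 * Real.pi * t : ℝ) : ℂ) * Complex.I := by
    push_cast; ring
  rw [ee, this, Complex.norm_exp_ofReal_mul_I]

lemma continuous_ee : Continuous ee := by
  unfold ee
  fun_prop

lemma ee_sum {α : Type*} (s : Finset α) (f : α → ℝ) : ee (∑ i ∈ s, f i) = ∏ i ∈ s, ee (f i) := by
  classical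
  induction s using Finset.induction_on with
  | empty => simp [ee_zero]
  | insert a s ha ih => rw [Finset.sum_insert ha, Finset.prod_insert ha, ee_add, ih]

lemma ee_div_int (N : ℕ) [NeZero N] (l d : ℤ) :
    ee ((l : ℝ) * (d : ℝ) / (N : ℝ)) = ZMod.stdAddChar ((d : ZMod N) * (l : ZMod N)) := by
  have h : (d : ZMod N) * (l : ZMod N) = ((d * l : ℤ) : ZMod N) := by push_cast; rfl
  rw [h, ZMod.stdAddChar_coe, ee]
  congr 1
  push_cast
  ring

namespace Sys

variable {ι X : Type*} [Fintype ι] [Fintype X] (D : Sys ι X)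

instance (i : ι) : NeZero (D.n i) := ⟨by have := D.hn i; omega⟩

lemma digit_sum_eq_zero (l : ι → ℤ) (i0 : ι) (h : ¬ (D.n i0 : ℤ) ∣ l i0) :
    ∑ s, ∑ s', ee (∑ i, (l i : ℝ) * ((D.x s i + D.y s' i : ℤ) : ℝ) / (D.n i : ℝ)) = 0 := by
  classical
  let β : X × X → ∀ i, ZMod (D.n i) := fun p i => ((D.x p.1 i + D.y p.2 i : ℤ) : ZMod (D.n i))
  have hinj : Function.Injective β := by
    rintro ⟨s1, s1'⟩ ⟨s2, s2'⟩ hβ
    have : ∀ i, (D.n i : ℤ) ∣ (D.x s1 i + D.y s1' i) - (D.x s2 i + D.y s2' i) := by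
      intro i
      have h1 := congrFun hβ i
      simp only [β] at h1
      have h2 := (ZMod.intCast_eq_intCast_iff_dvd_sub _ _ _).mp h1.symm
      exact h2
    obtain ⟨h1, h2⟩ := D.inj s1 s1' s2 s2' this
    rw [h1, h2]
  have hcard : Fintype.card (X × X) = Fintype.card (∀ i, ZMod (D.n i)) := by
    rw [Fintype.card_prod, Fintype.card_pi, ← sq, D.card]
    exact Finset.prod_congr rfl fun i _ => (ZMod.card (D.n i)).symm
  have hbij : Function.Bijective β := (Fintype.bijective_iff_injective_and_card _).mpr ⟨hinj, hcard⟩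
  have h1 : ∑ s, ∑ s', ee (∑ i, (l i : ℝ) * ((D.x s i + D.y s' i : ℤ) : ℝ) / (D.n i : ℝ)) =
      ∑ p : X × X, ∏ i, ZMod.stdAddChar (β p i * (l i : ZMod (D.n i))) := by
    rw [Fintype.sum_prod_type]
    refine Finset.sum_congr rfl fun s _ => Finset.sum_congr rfl fun s' _ => ?_
    rw [ee_sum]
    exact Finset.prod_congr rfl fun i _ => ee_div_int _ _ _
  rw [h1]
  have h2 : ∑ p : X × X, ∏ i, (ZMod.stdAddChar (β p i * (l i : ZMod (D.n i))) : ℂ) =
      ∑ g : (∀ i, ZMod (D.n i)), ∏ i, (ZMod.stdAddChar (g i * (l i : ZMod (D.n i))) : ℂ) :=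
    hbij.sum_comp (fun g => ∏ i, (ZMod.stdAddChar (g i * (l i : ZMod (D.n i))) : ℂ))
  rw [h2]
  have h3 : ∑ g : (∀ i, ZMod (D.n i)), ∏ i, (ZMod.stdAddChar (g i * (l i : ZMod (D.n i))) : ℂ) =
      ∏ i, ∑ t : ZMod (D.n i), (ZMod.stdAddChar (t * (l i : ZMod (D.n i))) : ℂ) := by
    rw [Finset.prod_univ_sum, Fintype.piFinset_univ]
  rw [h3]
  refine Finset.prod_eq_zero (Finset.mem_univ i0) ?_
  rw [AddChar.sum_mulShift _ (ZMod.isPrimitive_stdAddChar _), if_neg]
  · simp
  · rwa [ZMod.intCast_zmod_eq_zero_iff_dvd]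

lemma digit_sum_of_dvd (l : ι → ℤ) (s s' : X) (h : ∀ i, (D.n i : ℤ) ∣ l i) :
    ee (∑ i, (l i : ℝ) * ((D.x s i + D.y s' i : ℤ) : ℝ) / (D.n i : ℝ)) = 1 := by
  rw [ee_sum]
  refine Finset.prod_eq_one fun i _ => ?_
  obtain ⟨k, hk⟩ := h i
  have h1 : (l i : ℝ) * ((D.x s i + D.y s' i : ℤ) : ℝ) / (D.n i : ℝ) =
      ((k * (D.x s i + D.y s' i) : ℤ) : ℝ) := by
    rw [hk]
    have := (D.n_pos i).ne'
    push_cast
    field_simp
  rw [h1, ee_int]

variable [MeasurableSpace X] [MeasurableSingletonClass X] [Nonempty X]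

/-- Fourier transform of the tile measure -/
noncomputable def FT (l : ι → ℝ) : ℂ := ∫ w, ee (∑ i, l i * D.W w i) ∂(bern X)

lemma integrable_ee (f : (ℕ → X) → ℝ) (hf : Measurable f) :
    Integrable (fun w => ee (f w)) (bern X) := by
  refine Integrable.of_bound ((continuous_ee.measurable.comp hf).aestronglyMeasurable) 1 ?_
  exact Eventually.of_forall fun w => (norm_ee _).le

lemma measurable_lin (l : ι → ℝ) : Measurable fun w : ℕ → X => ∑ i, l i * D.W w i :=
  Finset.measurable_sum _ fun i _ => (D.measurable_W i).const_mul _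

lemma W_cons2 (s s' : X) (w : ℕ → X) (i : ι) :
    D.W (cons (s, cons (s', w))) i =
      ((D.x s i + D.y s' i : ℤ) : ℝ) / (D.n i : ℝ) + D.W w i / (D.n i : ℝ) := by
  rw [D.W_cons, cons_zero, shift_cons]
  push_cast
  ring

lemma FT_rec (l : ι → ℝ) :
    D.FT l = (Fintype.card X : ℂ)⁻¹ * ((Fintype.card X : ℂ)⁻¹ *
      ∑ s, ∑ s', ee (∑ i, l i * ((D.x s i + D.y s' i : ℤ) : ℝ) / (D.n i : ℝ))) *
        D.FT (fun i => l i / (D.n i : ℝ)) := by
  rw [FT, integral_cons _ (integrable_ee _ (D.measurable_lin l))]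
  have h1 : ∀ s : X, ∫ w, ee (∑ i, l i * D.W (cons (s, w)) i) ∂(bern X) =
      (Fintype.card X : ℂ)⁻¹ * ∑ s', ee (∑ i, l i * ((D.x s i + D.y s' i : ℤ) : ℝ) / (D.n i : ℝ)) *
        D.FT (fun i => l i / (D.n i : ℝ)) := by
    intro s
    have hm : Measurable fun w : ℕ → X => ∑ i, l i * D.W (cons (s, w)) i := by
      refine Finset.measurable_sum _ fun i _ => Measurable.const_mul ?_ _
      exact (D.measurable_W i).comp (measurable_cons.comp (measurable_const.prodMk measurable_id))
    rw [integral_cons _ (integrable_ee _ hm)]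
    congr 1
    refine Finset.sum_congr rfl fun s' _ => ?_
    rw [FT, ← integral_const_mul]
    refine integral_congr_ae (Eventually.of_forall fun w => ?_)
    simp only
    rw [← ee_add]
    congr 1
    rw [← Finset.sum_add_distrib]
    refine Finset.sum_congr rfl fun i _ => ?_
    rw [D.W_cons2]
    ring
  rw [Finset.sum_congr rfl fun s _ => h1 s]
  rw [← Finset.mul_sum, mul_assoc]
  congr 1
  rw [mul_assoc]
  congr 1
  rw [Finset.sum_mul]
  refine Finset.sum_congr rfl fun s _ => ?_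
  rw [Finset.sum_mul]

lemma FT_int (l : ι → ℤ) (hl : l ≠ 0) : D.FT (fun i => (l i : ℝ)) = 0 := by
  -- induction on the size of `l`
  suffices h : ∀ N : ℕ, ∀ l : ι → ℤ, l ≠ 0 → ∑ i, (l i).natAbs ≤ N →
      D.FT (fun i => (l i : ℝ)) = 0 from h _ l hl le_rfl
  intro N
  induction N with
  | zero =>
    intro l hl h
    exfalso
    apply hl
    funext i
    have h1 : (l i).natAbs ≤ ∑ i, (l i).natAbs :=
      Finset.single_le_sum (f := fun i => (l i).natAbs) (fun _ _ => Nat.zero_le _) (Finset.mem_univ i)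
    have h2 : (l i).natAbs = 0 := by omega
    simpa using h2
  | succ N ih =>
    intro l hl hN
    rw [D.FT_rec]
    by_cases hdiv : ∀ i, (D.n i : ℤ) ∣ l i
    · choose k hk using hdiv
      have h1 : (fun i => (l i : ℝ) / (D.n i : ℝ)) = fun i => (k i : ℝ) := by
        funext i
        have := (D.n_pos i).ne'
        rw [hk i]
        push_cast
        field_simp
      rw [h1, ih k, mul_zero]
      · intro h0
        apply hl
        funext i
        rw [hk i, h0]
        simp
      · have h2 : ∑ i, (k i).natAbs < ∑ i, (l i).natAbs := by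
          have h3 : ∀ i, (l i).natAbs = D.n i * (k i).natAbs := by
            intro i
            rw [hk i, Int.natAbs_mul, Int.natAbs_natCast]
          obtain ⟨i0, hi0⟩ : ∃ i, l i ≠ 0 := by
            by_contra hcon
            push Not at hcon
            exact hl (funext hcon)
          refine Finset.sum_lt_sum (fun i _ => ?_) ⟨i0, Finset.mem_univ _, ?_⟩
          · rw [h3 i]
            have := D.hn i
            nlinarith [Nat.zero_le (k i).natAbs]
          · rw [h3 i0]
            have h4 := D.hn i0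
            have h5 : 0 < (k i0).natAbs := by
              rw [Int.natAbs_pos]
              intro h6
              apply hi0
              rw [hk i0, h6, mul_zero]
            nlinarith
        omega
    · push Not at hdiv
      obtain ⟨i0, hi0⟩ := hdiv
      have h1 := D.digit_sum_eq_zero l i0 hi0
      rw [h1]
      simp

end Sys

end Pool.Agent.Lib.MP_5f557b_an
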