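import Mathlib
import Pool.Agent.Lib.MP_5f557b_an.Orth

set_option autoImplicit false
set_option linter.unusedSectionVars false

open Finset

namespace Pool.Agent.Lib.MP_5f557b_an

/-- twice the logarithms (mod 3) of the rows of a 6×6 Butson matrix `BH(6,3)` (Tao), the first
column dropped, read modulo 6 -/
def F2 : Fin 6 → Fin 5 → ZMod 6 :=
  ![![0, 0, 0, 0, 0], ![0, 2, 2, 4, 4], ![2, 0, 4, 4, 2], ![2, 4, 0, 2, 4], ![4, 4, 2, 0, 2],
    ![4, 2, 4, 2, 0]]

/-- fifteen linear forms on `(ℤ/6)^5`, each mapping `0, e₁, …, e₅` bijectively onto `ℤ/6` -/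
def c : Fin 15 → Fin 5 → ZMod 6 :=
  ![![3, 1, 4, 2, 5], ![1, 3, 2, 5, 4], ![1, 2, 4, 3, 5], ![1, 2, 3, 4, 5], ![1, 4, 2, 5, 3],
    ![3, 2, 1, 5, 4], ![2, 5, 1, 3, 4], ![5, 1, 3, 4, 2], ![1, 2, 5, 4, 3], ![1, 3, 4, 2, 5],
    ![2, 1, 5, 4, 3], ![2, 3, 1, 5, 4], ![1, 4, 3, 2, 5], ![1, 2, 5, 3, 4], ![3, 2, 1, 4, 5]]

/-- the values of the form `c r` on `0, e₁, …, e₅` -/
def c' (r : Fin 15) : Fin 6 → ZMod 6 := Fin.cons 0 (c r)

lemma c'_inj : ∀ r : Fin 15, Function.Injective (c' r) := by decide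

lemma F2_diff : ∀ p q : Fin 6, p ≠ q → ∃ r : Fin 15, ∃ t : ZMod 6,
    ∀ j, F2 p j - F2 q j = t * c r j := by decide

lemma F2_inj : Function.Injective F2 := by decide

lemma F2_even : ∀ (p : Fin 6) (j : Fin 5), ZMod.castHom (by norm_num : 2 ∣ 6) (ZMod 2) (F2 p j) = 0 := by
  decide

abbrev V : Type := Fin 5 → ZMod 6

/-- the linear form -/
def psi (r : Fin 15) : V →+ ZMod 6 where
  toFun a := ∑ j, c r j * a j
  map_zero' := by simp
  map_add' a b := by simp [mul_add, Finset.sum_add_distrib]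

lemma psi_apply (r : Fin 15) (a : V) : psi r a = ∑ j, c r j * a j := rfl

/-- the points `0, e₁, …, e₅` -/
def E (j : Fin 6) : V := fun i => if j = i.succ then 1 else 0

lemma psi_E (r : Fin 15) (j : Fin 6) : psi r (E j) = c' r j := by
  revert r j
  decide

abbrev Ker (r : Fin 15) : Type := {a : V // psi r a = 0}

lemma card_V : Fintype.card V = 7776 := by
  rw [Fintype.card_fun, ZMod.card, Fintype.card_fin]
  norm_num

lemma card_Ker (r : Fin 15) : Fintype.card (Ker r) = 1296 := by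
  let f : Ker r × Fin 6 → V := fun p => p.1.1 + E p.2
  have hinj : Function.Injective f := by
    rintro ⟨⟨a, ha⟩, j⟩ ⟨⟨b, hb⟩, k⟩ h
    simp only [f] at h
    have h1 := congrArg (psi r) h
    rw [map_add, map_add, ha, hb, zero_add, zero_add, psi_E, psi_E] at h1
    have h2 : j = k := c'_inj r h1
    subst h2
    have h3 : a = b := add_right_cancel h
    subst h3
    rfl
  have hsurj : Function.Surjective f := by
    intro v
    have hb : Function.Surjective (c' r) :=
      ((Fintype.bijective_iff_injective_and_card (c' r)).mpr ⟨c'_inj r, by simp⟩).2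
    obtain ⟨j, hj⟩ := hb (psi r v)
    refine ⟨⟨⟨v - E j, ?_⟩, j⟩, ?_⟩
    · rw [map_sub, psi_E, hj, sub_self]
    · simp [f]
  have h := Fintype.card_of_bijective ⟨hinj, hsurj⟩
  rw [Fintype.card_prod, card_V, Fintype.card_fin] at h
  omega

/-- the index set of the digits -/
abbrev S : Type := Σ r : Fin 15, Ker r

lemma card_S : Fintype.card S = 19440 := by
  rw [Fintype.card_sigma]
  simp [card_Ker]

/-- the character of `V` given by `δ` -/
noncomputable def chi (δ : V) : AddChar V ℂ where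
  toFun a := ZMod.stdAddChar (∑ j, a j * δ j)
  map_zero_eq_one' := by simp
  map_add_eq_mul' a b := by
    rw [← AddChar.map_add_eq_mul, ← Finset.sum_add_distrib]
    congr 2
    funext j
    rw [Pi.add_apply, add_mul]

lemma chi_apply (δ a : V) : chi δ a = ZMod.stdAddChar (∑ j, a j * δ j) := rfl

lemma norm_chi (δ a : V) : ‖chi δ a‖ = 1 := by
  rw [chi_apply]
  exact AddChar.norm_apply _ _

/-- real part of the sum of a character over a kernel is nonnegative -/
lemma ker_sum_re_nonneg (r : Fin 15) (δ : V) : 0 ≤ (∑ a : Ker r, chi δ a.1).re := by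
  classical
  let H : AddSubgroup V := (psi r).ker
  have : Fintype H := Fintype.ofFinite H
  let e : Ker r ≃ H := Equiv.subtypeEquivRight fun a => (AddMonoidHom.mem_ker).symm
  have h1 : ∑ a : Ker r, chi δ a.1 = ∑ a : H, chi δ a.1 :=
    Fintype.sum_equiv e _ _ fun a => rfl
  let ψ : AddChar H ℂ := (chi δ).compAddMonoidHom H.subtype
  have h2 : ∑ a : H, chi δ a.1 = ∑ a : H, ψ a := rfl
  rw [h1, h2, AddChar.sum_eq_ite]
  split_ifs
  · simp
  · simp

lemma ker_sum_eq (r : Fin 15) (δ : V) (t : ZMod 6) (h : ∀ j, δ j = t * c r j) :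
    ∑ a : Ker r, chi δ a.1 = 1296 := by
  have h1 : ∀ a : Ker r, chi δ a.1 = 1 := by
    intro a
    rw [chi_apply]
    have : ∑ j, a.1 j * δ j = t * psi r a.1 := by
      rw [psi_apply, Finset.mul_sum]
      refine Finset.sum_congr rfl fun j _ => ?_
      rw [h j]
      ring
    rw [this, a.2, mul_zero, AddChar.map_zero_eq_one]
  rw [Finset.sum_congr rfl fun a _ => h1 a]
  simp [card_Ker]

end Pool.Agent.Lib.MP_5f557b_an
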