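import Mathlib

set_option autoImplicit false

open MeasureTheory Set Submodule
open scoped ENNReal ComplexConjugate

namespace Pool.Agent.Lib.MP_5f557b_an

open UnitAddTorus

variable {ι : Type*} [Fintype ι]

lemma span_dense (ν : Measure (UnitAddTorus ι)) [IsFiniteMeasure ν] :
    (span ℂ (range fun n : ι → ℤ =>
      (ContinuousMap.toLp (E := ℂ) 2 ν ℂ (mFourier n)))).topologicalClosure = ⊤ := by
  have : Fact ((1 : ℝ≥0∞) ≤ 2) := ⟨by norm_num⟩
  have h := (ContinuousMap.toLp_denseRange ℂ ν ℂ (p := 2) (by norm_num)).topologicalClosure_map_submodule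
      (span_mFourier_closure_eq_top (d := ι))
  simpa only [map_span, ContinuousLinearMap.coe_coe, ← range_comp, Function.comp_def] using h

/-- The characters of the torus are total in `L²(ν)` for every finite measure `ν`. -/
lemma torus_complete (ν : Measure (UnitAddTorus ι)) [IsFiniteMeasure ν]
    (G : UnitAddTorus ι → ℂ) (hG : MemLp G 2 ν)
    (h : ∀ n : ι → ℤ, ∫ t, G t * mFourier (-n) t ∂ν = 0) : G =ᵐ[ν] 0 := by
  have hfact : Fact ((1 : ℝ≥0∞) ≤ 2) := ⟨by norm_num⟩
  set g : Lp ℂ 2 ν := hG.toLp G with hg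
  have horth : ∀ n : ι → ℤ, inner ℂ (ContinuousMap.toLp (E := ℂ) 2 ν ℂ (mFourier n)) g = 0 := by
    intro n
    rw [L2.inner_def]
    have h1 := ContinuousMap.coeFn_toLp (p := 2) (𝕜 := ℂ) ν (mFourier (d := ι) n)
    have h2 : (g : UnitAddTorus ι → ℂ) =ᵐ[ν] G := hG.coeFn_toLp
    have h3 : ∫ t, inner ℂ ((ContinuousMap.toLp (E := ℂ) 2 ν ℂ (mFourier n)) t) (g t) ∂ν =
        ∫ t, G t * mFourier (-n) t ∂ν := by
      refine integral_congr_ae ?_
      filter_upwards [h1, h2] with t ht1 ht2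
      rw [ht1, ht2, mFourier_neg]
      simp [RCLike.inner_apply]
    rw [h3, h n]
  have hmem : g ∈ (span ℂ (range fun n : ι → ℤ =>
      (ContinuousMap.toLp (E := ℂ) 2 ν ℂ (mFourier n))))ᗮ := by
    rw [mem_orthogonal]
    intro u hu
    induction hu using Submodule.span_induction with
    | mem x hx =>
      obtain ⟨n, rfl⟩ := hx
      exact horth n
    | zero => simp
    | add x y _ _ hx hy => rw [inner_add_left, hx, hy, add_zero]
    | smul a x _ hx => rw [inner_smul_left, hx, mul_zero]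
  have htop : (span ℂ (range fun n : ι → ℤ =>
      (ContinuousMap.toLp (E := ℂ) 2 ν ℂ (mFourier n))))ᗮ = ⊥ := by
    rw [← orthogonal_closure, span_dense ν, top_orthogonal_eq_bot]
  rw [htop, mem_bot] at hmem
  have h4 : (g : UnitAddTorus ι → ℂ) =ᵐ[ν] G := hG.coeFn_toLp
  have h5 : (g : UnitAddTorus ι → ℂ) =ᵐ[ν] 0 := by
    rw [hmem]
    exact Lp.coeFn_zero ℂ 2 ν
  exact h4.symm.trans h5

end Pool.Agent.Lib.MP_5f557b_an
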