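import Mathlib
import Pool.Agent.Lib.MP_5f557b_an.Torus
import Pool.Agent.Lib.MP_5f557b_an.Orth

set_option autoImplicit false
set_option linter.unusedSectionVars false

open MeasureTheory Set Filter Measure
open scoped ENNReal Topology

namespace Pool.Agent.Lib.MP_5f557b_an

namespace Sys

variable {ι X : Type*} [Fintype ι] [Fintype X] (D : Sys ι X)
variable [MeasurableSpace X] [MeasurableSingletonClass X] [Nonempty X]

/-- the `m`-th digit is synchronising -/
def SyncAt (m : ℕ) : Set (ℕ → X) := {w | ∀ i, D.dig (sh m w) i = 2}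

lemma measurableSet_syncAt (m : ℕ) : MeasurableSet (D.SyncAt m) := by
  have : D.SyncAt m = ⋂ i, (fun w : ℕ → X => (D.dig (sh m w) i : ℝ)) ⁻¹' {(2 : ℝ)} := by
    ext w
    simp only [SyncAt, mem_ofPred_eq, mem_iInter, mem_preimage, mem_singleton_iff]
    refine forall_congr' fun i => ?_
    constructor
    · intro h; rw [h]; norm_num
    · intro h; exact_mod_cast h
  rw [this]
  exact MeasurableSet.iInter fun i => D.measurable_dig m i (measurableSet_singleton _)

/-- never synchronising -/
def Never : Set (ℕ → X) := {w | ∀ m, w ∉ D.SyncAt m}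

lemma measurableSet_never : MeasurableSet D.Never := by
  have : D.Never = ⋂ m, (D.SyncAt m)ᶜ := by
    ext w; simp [Never]
  rw [this]
  exact MeasurableSet.iInter fun m => (D.measurableSet_syncAt m).compl

lemma measurableSet_good : MeasurableSet {w | D.Good w} := by
  have : {w | D.Good w} = ⋂ a : ℕ, ⋃ b : ℕ, ⋃ _ : a ≤ b, D.SyncAt b := by
    ext w
    simp only [Good, mem_ofPred_eq, frequently_atTop, mem_iInter, mem_iUnion, exists_prop]
    rfl
  rw [this]
  exact MeasurableSet.iInter fun a => MeasurableSet.iUnion fun b => MeasurableSet.iUnion fun _ =>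
    D.measurableSet_syncAt b

lemma sh_cons2 (m : ℕ) (s s' : X) (w : ℕ → X) :
    sh (m + 1) (cons (s, cons (s', w))) = sh m w := by
  funext j
  have e : 2 * (m + 1) + j = (2 * m + j) + 1 + 1 := by ring
  simp only [sh, e, cons_succ]

lemma mem_syncAt_zero (s s' : X) (w : ℕ → X) :
    cons (s, cons (s', w)) ∈ D.SyncAt 0 ↔ ∀ i, D.x s i + D.y s' i = 2 := by
  simp only [SyncAt, sh_zero, mem_ofPred_eq, dig]
  rfl

lemma mem_never (s s' : X) (w : ℕ → X) :
    cons (s, cons (s', w)) ∈ D.Never ↔ (¬ ∀ i, D.x s i + D.y s' i = 2) ∧ w ∈ D.Never := by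
  constructor
  · intro h
    refine ⟨fun h0 => h 0 ((D.mem_syncAt_zero s s' w).mpr h0), fun m hm => h (m + 1) ?_⟩
    simp only [SyncAt, mem_ofPred_eq] at hm ⊢
    rw [sh_cons2]
    exact hm
  · rintro ⟨h0, h1⟩ m hm
    cases m with
    | zero => exact h0 ((D.mem_syncAt_zero s s' w).mp hm)
    | succ m =>
      apply h1 m
      simp only [SyncAt, mem_ofPred_eq] at hm ⊢
      rwa [sh_cons2] at hm

lemma bern_never : bern X D.Never = 0 := by
  classical
  set p := bern X D.Never with hp
  have hptop : p ≠ ⊤ := measure_ne_top _ _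
  have h1 : ∀ s : X, bern X {w | cons (s, w) ∈ D.Never} = (Fintype.card X : ℝ≥0∞)⁻¹ *
      ∑ s' : X, (if (∀ i, D.x s i + D.y s' i = 2) then 0 else p) := by
    intro s
    have hm : MeasurableSet {w : ℕ → X | cons (s, w) ∈ D.Never} :=
      (measurable_cons.comp (measurable_const.prodMk measurable_id)) D.measurableSet_never
    rw [map_cons_apply hm]
    congr 1
    refine Finset.sum_congr rfl fun s' _ => ?_
    split_ifs with hsync
    · have : {w : ℕ → X | cons (s', w) ∈ {w : ℕ → X | cons (s, w) ∈ D.Never}} = ∅ := by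
        ext w
        simp only [mem_ofPred_eq, mem_empty_iff_false, iff_false]
        rw [D.mem_never]
        exact fun h => h.1 hsync
      rw [this, measure_empty]
    · have : {w : ℕ → X | cons (s', w) ∈ {w : ℕ → X | cons (s, w) ∈ D.Never}} = D.Never := by
        ext w
        simp only [mem_ofPred_eq]
        rw [D.mem_never]
        exact ⟨fun h => h.2, fun h => ⟨hsync, h⟩⟩
      rw [this]
  have h2 : p = (Fintype.card X : ℝ≥0∞)⁻¹ * ∑ s : X, ((Fintype.card X : ℝ≥0∞)⁻¹ *
      ∑ s' : X, (if (∀ i, D.x s i + D.y s' i = 2) then 0 else p)) := by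
    conv_lhs => rw [hp, map_cons_apply D.measurableSet_never]
    rw [Finset.sum_congr rfl fun s _ => h1 s]
  -- pass to real numbers
  set q : ℝ := p.toReal with hq
  set N : ℝ := (Fintype.card X : ℝ) with hN
  have hN0 : 0 < N := by
    rw [hN]; exact_mod_cast Fintype.card_pos
  have hpq : p = ENNReal.ofReal q := (ENNReal.ofReal_toReal hptop).symm
  have h3 : q = N⁻¹ * ∑ s : X, (N⁻¹ *
      ∑ s' : X, (if (∀ i, D.x s i + D.y s' i = 2) then 0 else q)) := by
    have h4 := congrArg ENNReal.toReal h2
    rw [ENNReal.toReal_mul, ENNReal.toReal_sum] at h4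
    · simp only [ENNReal.toReal_inv, ENNReal.toReal_natCast] at h4
      rw [← hq] at h4
      refine h4.trans ?_
      congr 1
      refine Finset.sum_congr rfl fun s _ => ?_
      rw [ENNReal.toReal_mul, ENNReal.toReal_sum]
      · simp only [ENNReal.toReal_inv, ENNReal.toReal_natCast]
        congr 1
        refine Finset.sum_congr rfl fun s' _ => ?_
        split_ifs
        · simp
        · rfl
      · intro s' _
        split_ifs
        · exact ENNReal.zero_ne_top
        · exact hptop
    · intro s _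
      refine ENNReal.mul_ne_top ?_ ?_
      · simp
      · refine ENNReal.sum_ne_top.mpr fun s' _ => ?_
        split_ifs
        · exact ENNReal.zero_ne_top
        · exact hptop
  obtain ⟨s0, s0', hs0⟩ := D.sync
  have hq0 : 0 ≤ q := ENNReal.toReal_nonneg
  have h5 : ∑ s : X, ∑ s' : X, (if (∀ i, D.x s i + D.y s' i = 2) then (0 : ℝ) else q) ≤
      N * N * q - q := by
    have h6 : ∑ s : X, ∑ s' : X, (if (∀ i, D.x s i + D.y s' i = 2) then (0 : ℝ) else q) ≤
        ∑ s : X, ∑ s' : X, (q - if s = s0 ∧ s' = s0' then q else 0) := by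
      refine Finset.sum_le_sum fun s _ => Finset.sum_le_sum fun s' _ => ?_
      by_cases hss : s = s0 ∧ s' = s0'
      · rw [if_pos hss, hss.1, hss.2, if_pos hs0, sub_self]
      · rw [if_neg hss, sub_zero]
        split_ifs
        · exact hq0
        · exact le_rfl
    refine h6.trans (le_of_eq ?_)
    simp only [Finset.sum_sub_distrib, Finset.sum_const, Finset.card_univ, nsmul_eq_mul]
    have h7 : ∑ s : X, ∑ s' : X, (if s = s0 ∧ s' = s0' then q else 0) = q := by
      rw [Finset.sum_eq_single s0]
      · rw [Finset.sum_eq_single s0']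
        · simp
        · intro b _ hb; simp [hb]
        · simp
      · intro b _ hb; simp [hb]
      · simp
    rw [h7]
    ring
  have h8 : q * (N * N) ≤ N * N * q - q := by
    calc q * (N * N) = N * N * (N⁻¹ * ∑ s : X, (N⁻¹ *
      ∑ s' : X, (if (∀ i, D.x s i + D.y s' i = 2) then 0 else q))) := by rw [← h3]; ring
      _ = ∑ s : X, ∑ s' : X, (if (∀ i, D.x s i + D.y s' i = 2) then (0 : ℝ) else q) := by
        rw [← Finset.mul_sum]
        field_simp
      _ ≤ _ := h5
  have hq00 : q = 0 := by linarith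
  rw [hpq, hq00, ENNReal.ofReal_zero]

lemma measurePreserving_sh (m : ℕ) :
    MeasurePreserving (sh m : (ℕ → X) → (ℕ → X)) (bern X) (bern X) := by
  induction m with
  | zero =>
    have : (sh 0 : (ℕ → X) → (ℕ → X)) = id := by funext w; exact sh_zero w
    rw [this]
    exact MeasurePreserving.id _
  | succ m ih =>
    have h1 : (sh 1 : (ℕ → X) → (ℕ → X)) = shift ∘ shift := by
      funext w j
      simp only [sh, Function.comp, shift]
      congr 1
      ring
    have : (sh (m + 1) : (ℕ → X) → (ℕ → X)) = sh m ∘ (shift ∘ shift) := by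
      funext w
      rw [sh_succ, h1]
      rfl
    rw [this]
    exact ih.comp ((bern_shift X).comp (bern_shift X))

lemma bern_not_good : bern X {w | D.Good w}ᶜ = 0 := by
  have hsub : {w | D.Good w}ᶜ ⊆ ⋃ M : ℕ, (sh M) ⁻¹' D.Never := by
    intro w hw
    simp only [mem_compl_iff, mem_ofPred_eq, Good, not_frequently, eventually_atTop] at hw
    obtain ⟨M, hM⟩ := hw
    refine mem_iUnion.mpr ⟨M, fun m hm => hM (M + m) (by omega) ?_⟩
    simp only [SyncAt, mem_ofPred_eq] at hm
    have : sh m (sh M w) = sh (M + m) w := by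
      funext j
      simp only [sh]
      congr 1
      ring
    rwa [this] at hm
  refine measure_mono_null hsub ?_
  refine measure_iUnion_null fun M => ?_
  rw [(measurePreserving_sh M).measure_preimage D.measurableSet_never.nullMeasurableSet]
  exact D.bern_never

/-- the coding map to the torus -/
noncomputable def tor (w : ℕ → X) : UnitAddTorus ι := fun i => ((D.W w i : ℝ) : UnitAddCircle)

lemma measurable_tor : Measurable D.tor :=
  measurable_pi_lambda _ fun i => AddCircle.measurable_mk'.comp (D.measurable_W i)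

lemma tor_injOn {w w' : ℕ → X} (hw : D.Good w) (h : D.tor w = D.tor w') : w = w' := by
  refine D.eq_of_intDiff hw fun i => ?_
  have h1 := congrFun h i
  simp only [tor] at h1
  have h2 : ((D.W w i - D.W w' i : ℝ) : UnitAddCircle) = 0 := by
    rw [AddCircle.coe_sub, h1, sub_self]
  obtain ⟨k, hk⟩ := (AddCircle.coe_eq_zero_iff (1 : ℝ)).mp h2
  exact ⟨k, by rw [← hk]; simp⟩

lemma mFourier_tor (l : ι → ℤ) (w : ℕ → X) :
    UnitAddTorus.mFourier (-l) (D.tor w) = ee (-(∑ i, (l i : ℝ) * D.W w i)) := by
  rw [← Finset.sum_neg_distrib, ee_sum]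
  simp only [UnitAddTorus.mFourier, ContinuousMap.coe_mk, tor]
  refine Finset.prod_congr rfl fun i _ => ?_
  rw [fourier_coe_apply, ee]
  congr 1
  push_cast [Pi.neg_apply]
  ring

/-- completeness of the exponentials -/
theorem complete (f : (ι → ℝ) × (ι → ℝ) → ℂ) (hf : MemLp f 2 D.mu)
    (h : ∀ l : ι → ℤ, ∫ z, f z * ee (-(∑ i, (l i : ℝ) * z.2 i)) ∂D.mu = 0) : f =ᵐ[D.mu] 0 := by
  obtain ⟨f', hf'm, hff'⟩ := hf.1
  have hf'meas : Measurable f' := hf'm.measurable
  have hf' : MemLp f' 2 D.mu := (memLp_congr_ae hff').mp hf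
  have h' : ∀ l : ι → ℤ, ∫ z, f' z * ee (-(∑ i, (l i : ℝ) * z.2 i)) ∂D.mu = 0 := by
    intro l
    rw [← h l]
    refine integral_congr_ae ?_
    filter_upwards [hff'] with z hz
    rw [hz]
  let F : (ℕ → X) → ℂ := fun w => f' (D.Z w)
  have hFmeas : Measurable F := hf'meas.comp D.measurable_Z
  have hF2 : MemLp F 2 (bern X) :=
    (memLp_map_measure_iff hf'm.aestronglyMeasurable D.measurable_Z.aemeasurable).mp hf'
  have hgoodae : ∀ᵐ w ∂(bern X), D.Good w := by
    rw [ae_iff]
    exact D.bern_not_good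
  -- measurable embedding
  have hstd : StandardBorelSpace ↥{w | D.Good w} := D.measurableSet_good.standardBorel
  have hemb : MeasurableEmbedding (fun w : ↥{w | D.Good w} => D.tor w.1) := by
    refine Measurable.measurableEmbedding (D.measurable_tor.comp measurable_subtype_coe) ?_
    intro a b hab
    exact Subtype.ext (D.tor_injOn a.2 hab)
  obtain ⟨G, hGmeas, hG⟩ := hemb.exists_measurable_extend
    (g := fun w : ↥{w | D.Good w} => F w.1) (hFmeas.comp measurable_subtype_coe) (fun _ => ⟨0⟩)
  have hGF : ∀ w, D.Good w → G (D.tor w) = F w := by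
    intro w hw
    exact congrFun hG ⟨w, hw⟩
  have hGFae : (G ∘ D.tor) =ᵐ[bern X] F := by
    filter_upwards [hgoodae] with w hw
    exact hGF w hw
  let ν : Measure (UnitAddTorus ι) := (bern X).map D.tor
  have : IsProbabilityMeasure ν := Measure.isProbabilityMeasure_map D.measurable_tor.aemeasurable
  have hG2 : MemLp G 2 ν :=
    (memLp_map_measure_iff hGmeas.aestronglyMeasurable D.measurable_tor.aemeasurable).mpr
      ((memLp_congr_ae hGFae).mpr hF2)
  have hzero : ∀ n : ι → ℤ, ∫ t, G t * UnitAddTorus.mFourier (-n) t ∂ν = 0 := by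
    intro l
    have hm1 : Measurable fun t => G t * UnitAddTorus.mFourier (-l) t :=
      hGmeas.mul (UnitAddTorus.mFourier (-l)).continuous.measurable
    rw [integral_map D.measurable_tor.aemeasurable hm1.aestronglyMeasurable]
    have h1 : ∫ w, G (D.tor w) * UnitAddTorus.mFourier (-l) (D.tor w) ∂(bern X) =
        ∫ w, f' (D.Z w) * ee (-(∑ i, (l i : ℝ) * (D.Z w).2 i)) ∂(bern X) := by
      refine integral_congr_ae ?_
      filter_upwards [hgoodae] with w hw
      rw [hGF w hw, D.mFourier_tor]
      rfl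
    rw [h1, ← h' l, mu]
    have hm2 : Measurable fun z : (ι → ℝ) × (ι → ℝ) =>
        f' z * ee (-(∑ i, (l i : ℝ) * z.2 i)) := by
      refine hf'meas.mul (continuous_ee.measurable.comp ?_)
      fun_prop
    rw [integral_map D.measurable_Z.aemeasurable hm2.aestronglyMeasurable]
  have hG0 := torus_complete ν G hG2 hzero
  have hG0' : ∀ᵐ w ∂(bern X), G (D.tor w) = 0 := by
    have hset : MeasurableSet {t | G t = 0} := hGmeas (measurableSet_singleton 0)
    exact (ae_map_iff D.measurable_tor.aemeasurable hset).mp hG0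
  have hF0 : ∀ᵐ w ∂(bern X), f' (D.Z w) = 0 := by
    filter_upwards [hG0', hgoodae] with w h1 h2
    rw [hGF w h2] at h1
    exact h1
  have hf'0 : ∀ᵐ z ∂D.mu, f' z = 0 := by
    have hset : MeasurableSet {z | f' z = 0} := hf'meas (measurableSet_singleton 0)
    exact (ae_map_iff D.measurable_Z.aemeasurable hset).mpr hF0
  filter_upwards [hff', hf'0] with z h1 h2
  rw [h1, h2]
  rfl

/-- orthogonality of the exponentials -/
theorem orth (l : ι → ℤ) (hl : l ≠ 0) :
    ∫ z, ee (∑ i, (l i : ℝ) * z.2 i) ∂D.mu = 0 := by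
  have hm : Measurable fun z : (ι → ℝ) × (ι → ℝ) => ee (∑ i, (l i : ℝ) * z.2 i) := by
    refine continuous_ee.measurable.comp ?_
    fun_prop
  rw [mu, integral_map D.measurable_Z.aemeasurable hm.aestronglyMeasurable]
  exact D.FT_int l hl

end Sys

end Pool.Agent.Lib.MP_5f557b_an
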