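import Mathlib
import Pool.Agent.Lib.MP_5f557b_an.Comb

set_option autoImplicit false
set_option linter.unusedSectionVars false

open Finset

namespace Pool.Agent.Lib.MP_5f557b_an

abbrev I : Type := Fin 5 ⊕ Fin 2

/-- the moduli -/
def nn : I → ℕ := Sum.elim (fun _ => 6) ![15, 3240]

/-- the element of `S` which gets a nonzero last coordinate -/
def sg : S := ⟨4, ⟨0, by simp⟩⟩

/-- the last coordinate -/
def gS (s : S) : ℤ := if s = sg then 1 else 0

/-- the set `X` -/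
def xS (s : S) : I → ℤ := Sum.elim (fun j => ((s.2.1 j).val : ℤ)) ![((s.1 : ℕ) : ℤ), gS s]

/-- counting: a set of frequencies of size ≥ 1296 in `V` has a difference in `F2 - F2`. -/
lemma counting {α : Type*} [DecidableEq α] (L : Finset α) (ξ : α → V) (hL : 1296 ≤ L.card)
    (h : ∀ l ∈ L, ∀ l' ∈ L, l ≠ l' → ∀ p q : Fin 6, ∃ j, ξ l j - ξ l' j ≠ F2 p j - F2 q j) :
    False := by
  classical
  let par : V → (Fin 5 → ZMod 2) := fun v j => ZMod.castHom (by norm_num : 2 ∣ 6) (ZMod 2) (v j)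
  obtain ⟨κ, -, hκ⟩ := Finset.exists_lt_card_fiber_of_mul_lt_card_of_maps_to (s := L)
    (t := (Finset.univ : Finset (Fin 5 → ZMod 2))) (f := fun l => par (ξ l)) (n := 40)
    (fun _ _ => Finset.mem_univ _) (by
      have : (Finset.univ : Finset (Fin 5 → ZMod 2)).card = 32 := by
        rw [Finset.card_univ, Fintype.card_fun, ZMod.card, Fintype.card_fin]; norm_num
      rw [this]
      omega)
  set L1 := {l ∈ L | par (ξ l) = κ} with hL1
  have hmap : ∀ x ∈ L1 ×ˢ (Finset.univ : Finset (Fin 6)), (ξ x.1 + F2 x.2) ∈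
      Fintype.piFinset (fun j : Fin 5 => (Finset.univ : Finset (ZMod 6)).filter
        (fun t => ZMod.castHom (by norm_num : 2 ∣ 6) (ZMod 2) t = κ j)) := by
    rintro ⟨l, p⟩ hx
    rw [Fintype.mem_piFinset]
    intro j
    rw [Finset.mem_filter]
    refine ⟨Finset.mem_univ _, ?_⟩
    have hl : par (ξ l) = κ := (Finset.mem_filter.mp (Finset.mem_product.mp hx).1).2
    have h1 := congrFun hl j
    simp only [par] at h1
    rw [Pi.add_apply, map_add, h1, F2_even, add_zero]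
  have hinj : Set.InjOn (fun x : α × Fin 6 => ξ x.1 + F2 x.2)
      (L1 ×ˢ (Finset.univ : Finset (Fin 6)) : Finset (α × Fin 6)) := by
    rintro ⟨l, p⟩ hx ⟨l', q⟩ hx' heq
    have hl : l ∈ L := (Finset.mem_filter.mp (Finset.mem_product.mp hx).1).1
    have hl' : l' ∈ L := (Finset.mem_filter.mp (Finset.mem_product.mp hx').1).1
    simp only at heq
    by_cases hll : l = l'
    · subst hll
      have : F2 p = F2 q := add_left_cancel heq
      rw [F2_inj this]
    · exfalso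
      obtain ⟨j, hj⟩ := h l hl l' hl' hll q p
      apply hj
      have h1 := congrFun heq j
      simp only [Pi.add_apply] at h1
      linear_combination h1
  have hcard := Finset.card_le_card_of_injOn _ hmap hinj
  rw [Finset.card_product, Fintype.card_piFinset, Finset.card_univ, Fintype.card_fin] at hcard
  have h3 : ∀ k : ZMod 2, ((Finset.univ : Finset (ZMod 6)).filter
        (fun t => ZMod.castHom (by norm_num : 2 ∣ 6) (ZMod 2) t = k)).card = 3 := by decide
  simp only [h3] at hcard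
  simp at hcard
  omega

lemma ee_split (s : S) (d : I → ℝ) :
    ∑ i, (xS s i : ℝ) * d i / (nn i : ℝ) =
      (∑ j : Fin 5, ((s.2.1 j).val : ℝ) * d (Sum.inl j) / 6) +
        (((s.1 : ℕ) : ℝ) * d (Sum.inr 0) / 15 + (gS s : ℝ) * d (Sum.inr 1) / 3240) := by
  rw [Fintype.sum_sum_type, Fin.sum_univ_two]
  simp only [xS, nn, Sum.elim_inl, Sum.elim_inr, Matrix.cons_val_zero, Matrix.cons_val_one]
  push_cast
  ring

/-- value of the exponential on `xS s` -/
lemma ee_xS (s : S) (l l' : I → ℤ) (k : ℤ) (hk : l (Sum.inr 0) - l' (Sum.inr 0) = 15 * k) :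
    ee (∑ i, (xS s i : ℝ) * ((l i : ℝ) - (l' i : ℝ)) / (nn i : ℝ)) =
      chi (fun j => ((l (Sum.inl j) : ZMod 6) - (l' (Sum.inl j) : ZMod 6))) s.2.1 *
        ee ((gS s : ℝ) * ((l (Sum.inr 1) : ℝ) - (l' (Sum.inr 1) : ℝ)) / 3240) := by
  rw [ee_split s (fun i => (l i : ℝ) - (l' i : ℝ)), ee_add, ee_add]
  have h1 : ee (((s.1 : ℕ) : ℝ) * ((l (Sum.inr 0) : ℝ) - (l' (Sum.inr 0) : ℝ)) / 15) = 1 := by
    have : ((s.1 : ℕ) : ℝ) * ((l (Sum.inr 0) : ℝ) - (l' (Sum.inr 0) : ℝ)) / 15 =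
        (((s.1 : ℕ) * k : ℤ) : ℝ) := by
      have h2 : ((l (Sum.inr 0) : ℝ) - (l' (Sum.inr 0) : ℝ)) = 15 * (k : ℝ) := by
        exact_mod_cast hk
      rw [h2]
      push_cast
      ring
    rw [this, ee_int]
  rw [h1, one_mul]
  congr 1
  rw [ee_sum, chi_apply]
  have h2 : ∀ j : Fin 5, ee (((s.2.1 j).val : ℝ) * ((l (Sum.inl j) : ℝ) - (l' (Sum.inl j) : ℝ)) / 6) =
      ZMod.stdAddChar (s.2.1 j * ((l (Sum.inl j) : ZMod 6) - (l' (Sum.inl j) : ZMod 6))) := by
    intro j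
    have h3 := ee_div_int 6 ((s.2.1 j).val : ℤ) (l (Sum.inl j) - l' (Sum.inl j))
    push_cast at h3
    rw [h3]
    congr 1
    rw [ZMod.natCast_val, ZMod.cast_id']
    simp only [id]
    ring
  rw [Finset.prod_congr rfl fun j _ => h2 j]
  have h4 : ∀ (t : Finset (Fin 5)) (v : Fin 5 → ZMod 6),
      ∏ j ∈ t, (ZMod.stdAddChar (v j) : ℂ) = ZMod.stdAddChar (∑ j ∈ t, v j) := by
    intro t v
    induction t using Finset.induction_on with
    | empty => simp
    | insert a t ha ih => rw [Finset.prod_insert ha, Finset.sum_insert ha, ih,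
        AddChar.map_add_eq_mul]
  rw [h4]

theorem nonspectral {α : Type*} (L : Finset α) (f : α → I → ℤ) (hL : L.card = 19440)
    (h : ∀ l ∈ L, ∀ l' ∈ L, l ≠ l' →
      ∑ s : S, ee (∑ i, (xS s i : ℝ) * ((f l i : ℝ) - (f l' i : ℝ)) / (nn i : ℝ)) = 0) : False := by
  classical
  -- pigeonhole on the class modulo 15
  obtain ⟨η, -, hη⟩ := Finset.exists_le_card_fiber_of_mul_le_card_of_maps_to (s := L)
    (t := (Finset.univ : Finset (ZMod 15))) (f := fun l => (f l (Sum.inr 0) : ZMod 15))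
    (n := 1296) (fun _ _ => Finset.mem_univ _) ⟨0, Finset.mem_univ _⟩ (by
      rw [Finset.card_univ, ZMod.card]
      omega)
  set L0 := {l ∈ L | (f l (Sum.inr 0) : ZMod 15) = η} with hL0
  refine counting L0 (fun l j => (f l (Sum.inl j) : ZMod 6)) hη ?_
  intro l hl l' hl' hne p q
  by_contra hcon
  push Not at hcon
  have hlL : l ∈ L := (Finset.mem_filter.mp hl).1
  have hlL' : l' ∈ L := (Finset.mem_filter.mp hl').1
  have hη1 : (f l (Sum.inr 0) : ZMod 15) = (f l' (Sum.inr 0) : ZMod 15) := by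
    rw [(Finset.mem_filter.mp hl).2, (Finset.mem_filter.mp hl').2]
  obtain ⟨k, hk⟩ : (15 : ℤ) ∣ f l (Sum.inr 0) - f l' (Sum.inr 0) := by
    have := (ZMod.intCast_eq_intCast_iff_dvd_sub _ _ _).mp hη1.symm
    exact_mod_cast this
  set δ : V := fun j => ((f l (Sum.inl j) : ZMod 6) - (f l' (Sum.inl j) : ZMod 6)) with hδ
  set θ : ℝ := ((f l (Sum.inr 1) : ℝ) - (f l' (Sum.inr 1) : ℝ)) / 3240 with hθ
  have hsum := h l hlL l' hlL' hne
  have h1 : ∀ s : S, ee (∑ i, (xS s i : ℝ) * ((f l i : ℝ) - (f l' i : ℝ)) / (nn i : ℝ)) =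
      chi δ s.2.1 + (if s = sg then chi δ s.2.1 * (ee θ - 1) else 0) := by
    intro s
    rw [ee_xS s (f l) (f l') k hk]
    by_cases hs : s = sg
    · rw [if_pos hs]
      have : gS s = 1 := by simp [gS, hs]
      rw [this]
      have h2 : ((1 : ℤ) : ℝ) * ((f l (Sum.inr 1) : ℝ) - (f l' (Sum.inr 1) : ℝ)) / 3240 = θ := by
        rw [hθ]; push_cast; ring
      rw [h2]
      ring
    · rw [if_neg hs]
      have : gS s = 0 := by simp [gS, hs]
      rw [this]
      have h2 : ((0 : ℤ) : ℝ) * ((f l (Sum.inr 1) : ℝ) - (f l' (Sum.inr 1) : ℝ)) / 3240 = 0 := by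
        push_cast; ring
      rw [h2, ee_zero]
      ring
  rw [Finset.sum_congr rfl fun s _ => h1 s, Finset.sum_add_distrib,
    Finset.sum_ite_eq' Finset.univ sg, if_pos (Finset.mem_univ _)] at hsum
  -- lower bound for the real part of the main sum
  have hmain : (1296 : ℝ) ≤ (∑ s : S, chi δ s.2.1).re := by
    rw [Fintype.sum_sigma, Complex.re_sum]
    have hr0 : ∃ r : Fin 15, ∃ t : ZMod 6, ∀ j, δ j = t * c r j := by
      by_cases hpq : p = q
      · refine ⟨0, 0, fun j => ?_⟩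
        have := hcon j
        rw [hpq, sub_self] at this
        rw [zero_mul]
        exact this
      · obtain ⟨r, t, ht⟩ := F2_diff p q hpq
        exact ⟨r, t, fun j => (hcon j).trans (ht j)⟩
    obtain ⟨r, t, ht⟩ := hr0
    have h2 := ker_sum_eq r δ t ht
    have h3 : (1296 : ℝ) = (∑ a : Ker r, chi δ a.1).re := by rw [h2]; simp
    rw [h3]
    exact Finset.single_le_sum (f := fun r : Fin 15 => (∑ a : Ker r, chi δ a.1).re)
      (fun r _ => ker_sum_re_nonneg r δ) (Finset.mem_univ r)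
  have hsmall : ‖chi δ sg.2.1 * (ee θ - 1)‖ ≤ 2 := by
    rw [norm_mul, norm_chi, one_mul]
    calc ‖ee θ - 1‖ ≤ ‖ee θ‖ + ‖(1 : ℂ)‖ := norm_sub_le _ _
      _ = 2 := by rw [norm_ee]; norm_num
  have h5 : (∑ s : S, chi δ s.2.1) = -(chi δ sg.2.1 * (ee θ - 1)) := eq_neg_of_add_eq_zero_left hsum
  have h6 : (∑ s : S, chi δ s.2.1).re ≤ 2 := by
    rw [h5]
    calc (-(chi δ sg.2.1 * (ee θ - 1))).re ≤ ‖-(chi δ sg.2.1 * (ee θ - 1))‖ := Complex.re_le_norm _
      _ = ‖chi δ sg.2.1 * (ee θ - 1)‖ := norm_neg _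
      _ ≤ 2 := hsmall
  linarith

end Pool.Agent.Lib.MP_5f557b_an
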