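import Mathlib
import Pool.Agent.Lib.MP_5f557b_an.NonSpec

set_option autoImplicit false
set_option linter.unusedSectionVars false

open Finset

namespace Pool.Agent.Lib.MP_5f557b_an

abbrev Y : Type := Fin 6 × Fin 3240

/-- the set `Y` -/
def yY (t : Y) : I → ℤ := Sum.elim (fun i => if t.1 = i.succ then 1 else 0) ![0, ((t.2 : ℕ) : ℤ)]

/-- nine special elements of `S` -/
def pp : Fin 9 → S :=
  ![⟨0, ⟨![0, 0, 0, 0, 0], by decide⟩⟩,
    ⟨1, ⟨![0, 0, 0, 0, 0], by decide⟩⟩,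
    ⟨3, ⟨![0, 0, 0, 0, 0], by decide⟩⟩,
    ⟨3, ⟨![1, 1, 1, 0, 0], by decide⟩⟩,
    ⟨3, ⟨![1, 0, 0, 0, 1], by decide⟩⟩,
    ⟨7, ⟨![1, 1, 0, 0, 0], by decide⟩⟩,
    ⟨7, ⟨![0, 0, 0, 1, 1], by decide⟩⟩,
    ⟨0, ⟨![0, 0, 1, 1, 0], by decide⟩⟩,
    ⟨4, ⟨![0, 0, 0, 0, 0], by decide⟩⟩]

lemma pp_inj : Function.Injective pp := by decide

lemma exists_phi : ∃ φ : S ≃ Y, ∀ i : Fin 9, φ (pp i) = (0, ⟨i.val, by omega⟩) := by
  classical
  let q : Fin 9 → Y := fun i => (0, ⟨i.val, by omega⟩)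
  have hq : Function.Injective q := by
    intro a b h
    simp only [q, Prod.mk.injEq, true_and, Fin.mk.injEq] at h
    exact Fin.ext h
  have hcard : Fintype.card S = (Finset.univ : Finset Y).card := by
    rw [card_S, Finset.card_univ, Fintype.card_prod, Fintype.card_fin, Fintype.card_fin]
  obtain ⟨g, hg⟩ := Finset.exists_equiv_extend_of_card_eq (t := (Finset.univ : Finset Y)) hcard
    (s := Finset.univ.image pp) (f := Function.extend pp q (fun _ => (0, 0)))
    (Finset.subset_univ _) (by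
      intro a ha b hb hab
      obtain ⟨i, -, rfl⟩ := Finset.mem_image.mp (Finset.mem_coe.mp ha)
      obtain ⟨j, -, rfl⟩ := Finset.mem_image.mp (Finset.mem_coe.mp hb)
      rw [pp_inj.extend_apply, pp_inj.extend_apply] at hab
      rw [hq hab])
  refine ⟨g.trans ⟨fun t => t.1, fun t => ⟨t, Finset.mem_univ _⟩, fun t => rfl, fun t => rfl⟩, ?_⟩
  intro i
  have := hg (pp i) (Finset.mem_image_of_mem _ (Finset.mem_univ _))
  rw [pp_inj.extend_apply] at this
  exact this

noncomputable def phi : S ≃ Y := exists_phi.choose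

lemma phi_pp (i : Fin 9) : phi (pp i) = (0, ⟨i.val, by omega⟩) := exists_phi.choose_spec i

noncomputable def yS (s : S) : I → ℤ := yY (phi s)

lemma tile_inj (s1 s2 : S) (t1 t2 : Y)
    (h : ∀ i, (nn i : ℤ) ∣ (xS s1 i + yY t1 i) - (xS s2 i + yY t2 i)) : s1 = s2 ∧ t1 = t2 := by
  obtain ⟨r1, ⟨a1, ha1⟩⟩ := s1
  obtain ⟨r2, ⟨a2, ha2⟩⟩ := s2
  obtain ⟨j1, z1⟩ := t1
  obtain ⟨j2, z2⟩ := t2
  -- the coordinate modulo 15
  have hr : r1 = r2 := by
    have h1 := h (Sum.inr 0)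
    simp only [nn, xS, yY, Sum.elim_inr, Matrix.cons_val_zero, add_zero] at h1
    have h2 : (r1 : ℕ) = (r2 : ℕ) := by
      have := r1.2
      have := r2.2
      push_cast at h1
      omega
    exact Fin.ext h2
  subst hr
  -- the coordinates modulo 6
  have hV : a1 + E j1 = a2 + E j2 := by
    funext i
    have h1 := h (Sum.inl i)
    simp only [nn, xS, yY, Sum.elim_inl] at h1
    have h2 : (((((a1 i).val : ℤ) + if j1 = i.succ then 1 else 0 : ℤ)) : ZMod 6) =
        ((((a2 i).val : ℤ) + if j2 = i.succ then 1 else 0 : ℤ) : ZMod 6) := by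
      have := (ZMod.intCast_eq_intCast_iff_dvd_sub _ _ _).mpr h1
      exact this.symm
    have h3 : ∀ (a : ZMod 6) (j : Fin 6), ((((a.val : ℤ) + if j = i.succ then 1 else 0 : ℤ)) : ZMod 6)
        = a + (if j = i.succ then 1 else 0) := by
      intro a j
      split_ifs <;> simp
    rw [h3, h3] at h2
    exact h2
  have hj : j1 = j2 := by
    have h1 := congrArg (psi r1) hV
    rw [map_add, map_add, ha1, ha2, zero_add, zero_add, psi_E, psi_E] at h1
    exact c'_inj r1 h1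
  subst hj
  have ha : a1 = a2 := add_right_cancel hV
  subst ha
  refine ⟨rfl, ?_⟩
  have h1 := h (Sum.inr 1)
  simp only [nn, xS, yY, Sum.elim_inr, Matrix.cons_val_one] at h1
  have h2 : (z1 : ℕ) = (z2 : ℕ) := by
    have := z1.2
    have := z2.2
    push_cast at h1
    omega
  rw [Fin.ext h2]

lemma xS_nonneg (s : S) (i : I) : 0 ≤ xS s i := by
  rcases i with i | i
  · exact Int.natCast_nonneg _
  · fin_cases i
    · exact Int.natCast_nonneg _
    · change 0 ≤ gS s
      rw [gS]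
      split_ifs <;> norm_num

lemma yY_nonneg (t : Y) (i : I) : 0 ≤ yY t i := by
  rcases i with i | i
  · simp only [yY, Sum.elim_inl]
    split_ifs <;> norm_num
  · fin_cases i
    · exact le_refl (0 : ℤ)
    · exact Int.natCast_nonneg _

lemma digit_le (s : S) (t : Y) (i : I) : xS s i + yY t i ≤ nn i := by
  rcases i with i | i
  · simp only [xS, yY, nn, Sum.elim_inl]
    have h1 : (s.2.1 i).val < 6 := ZMod.val_lt _
    split_ifs <;> push_cast <;> omega
  · fin_cases i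
    · have h1 := s.1.2
      change ((s.1 : ℕ) : ℤ) + 0 ≤ ((15 : ℕ) : ℤ)
      omega
    · have h1 := t.2.2
      change gS s + ((t.2 : ℕ) : ℤ) ≤ ((3240 : ℕ) : ℤ)
      have h2 : gS s ≤ 1 := by rw [gS]; split_ifs <;> norm_num
      omega

lemma nn_inl (i : Fin 5) : nn (Sum.inl i) = 6 := rfl
lemma nn_r : nn (Sum.inr 0) = 15 := rfl
lemma nn_z : nn (Sum.inr 1) = 3240 := rfl

lemma nn_ge (i : I) : 4 ≤ nn i := by
  rcases i with i | i
  · rw [nn_inl]; norm_num
  · fin_cases i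
    · change 4 ≤ nn (Sum.inr 0)
      rw [nn_r]; norm_num
    · change 4 ≤ nn (Sum.inr 1)
      rw [nn_z]; norm_num

/-- the first letter of the synchronising pair -/
def s2 : S := ⟨2, ⟨fun _ => 2, by decide⟩⟩

lemma gS_s2 : gS s2 = 0 := by
  rw [gS, if_neg]
  intro h
  have := congrArg Sigma.fst h
  exact absurd this (by decide)

lemma sync_aux (i : I) : xS s2 i + yY (0, 2) i = 2 := by
  rcases i with i | i
  · have h1 : yY (0, 2) (Sum.inl i) = 0 := by
      simp only [yY, Sum.elim_inl]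
      exact if_neg (Fin.succ_ne_zero i).symm
    have h2 : xS s2 (Sum.inl i) = 2 := rfl
    rw [h1, h2, add_zero]
  · fin_cases i
    · change xS s2 (Sum.inr 0) + yY (0, 2) (Sum.inr 0) = 2
      have h1 : yY (0, 2) (Sum.inr 0) = 0 := rfl
      have h2 : xS s2 (Sum.inr 0) = 2 := rfl
      rw [h1, h2]; norm_num
    · change xS s2 (Sum.inr 1) + yY (0, 2) (Sum.inr 1) = 2
      have h1 : yY (0, 2) (Sum.inr 1) = 2 := rfl
      have h2 : xS s2 (Sum.inr 1) = 0 := gS_s2
      rw [h1, h2]; norm_num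

lemma card_sq : (Fintype.card S) ^ 2 = ∏ i, nn i := by
  rw [card_S, Fintype.prod_sum_type, Fin.prod_univ_two]
  rw [Finset.prod_congr rfl fun i _ => nn_inl i, nn_r, nn_z, Finset.prod_const, Finset.card_univ,
    Fintype.card_fin]
  norm_num

lemma prod_nn : ∏ i, nn i = 19440 ^ 2 := by
  rw [← card_sq, card_S]

/-- the digit system -/
theorem exists_sys : ∃ D : Sys I S, D.n = nn ∧ D.x = xS ∧ D.y = yS := by
  refine ⟨⟨nn, xS, yS, nn_ge, ?_, ?_, ?_, ?_, ?_⟩, ?_, ?_, ?_⟩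
  · exact fun s s' i => add_nonneg (xS_nonneg s i) (yY_nonneg _ i)
  · exact fun s s' i => digit_le s _ i
  · intro s1 s1' s2 s2' h
    obtain ⟨h1, h2⟩ := tile_inj s1 s2 (phi s1') (phi s2') h
    exact ⟨h1, phi.injective h2⟩
  · exact card_sq
  · refine ⟨s2, phi.symm (0, 2), fun i => ?_⟩
    have hy : yS (phi.symm (0, 2)) = yY (0, 2) := by simp [yS]
    rw [hy]
    exact sync_aux i
  · rfl
  · rfl
  · rfl

end Pool.Agent.Lib.MP_5f557b_an
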