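import Mathlib
import Pool.Agent.Lib.MP_5f557b_an.System

set_option autoImplicit false
set_option linter.unusedSectionVars false

open Finset

namespace Pool.Agent.Lib.MP_5f557b_an

lemma pp8 : pp 8 = sg := by
  have h : (⟨![0, 0, 0, 0, 0], by decide⟩ : Ker 4) = ⟨0, by simp⟩ := by
    apply Subtype.ext
    funext i
    fin_cases i <;> rfl
  change (⟨4, (⟨![0, 0, 0, 0, 0], by decide⟩ : Ker 4)⟩ : S) = sg
  rw [h]
  rfl

lemma ppne (i : Fin 9) (h : i ≠ 8) : pp i ≠ sg := by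
  intro h1
  have h2 := congrArg (fun s : S => s.1) h1
  revert h h2
  clear h1
  revert i
  decide

/-- the vectors obtained by eliminating the second component -/
def vv (i : Fin 9) : I → ℤ := fun k => xS (pp i) k - (i.val : ℤ) * xS (pp 1) k

/-- first coordinates -/
def aa (i : Fin 9) : I → ℤ := Sum.elim (fun j => (((pp i).2.1 j).val : ℤ))
  ![(((pp i).1 : ℕ) : ℤ), if i = 8 then 1 else 0]

lemma xS_pp (i : Fin 9) : xS (pp i) = aa i := by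
  rw [xS, aa, gS]
  congr 2
  by_cases h : i = 8
  · subst h
    rw [if_pos pp8, if_pos rfl]
  · rw [if_neg (ppne i h), if_neg h]

lemma vv_eq (i : Fin 9) : vv i = fun k => aa i k - (i.val : ℤ) * aa 1 k := by
  funext k
  rw [vv, xS_pp, xS_pp]

lemma er_eq : (Pi.single (Sum.inr 0) 1 : I → ℤ) = vv 2 := by simp only [vv_eq]; decide
lemma ez_eq : (Pi.single (Sum.inr 1) 1 : I → ℤ) = vv 8 + (4 : ℤ) • vv 2 := by simp only [vv_eq]; decide
lemma e2_eq : (Pi.single (Sum.inl 2) 1 : I → ℤ) = vv 3 - vv 5 + (2 : ℤ) • vv 2 := by simp only [vv_eq]; decide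
lemma e3_eq : (Pi.single (Sum.inl 3) 1 : I → ℤ) = vv 7 + (7 : ℤ) • vv 2 - (vv 3 - vv 5 + (2 : ℤ) • vv 2) := by
  simp only [vv_eq]; decide
lemma e4_eq : (Pi.single (Sum.inl 4) 1 : I → ℤ) = vv 6 - vv 2 -
    (vv 7 + (7 : ℤ) • vv 2 - (vv 3 - vv 5 + (2 : ℤ) • vv 2)) := by
  simp only [vv_eq]; decide
lemma e0_eq : (Pi.single (Sum.inl 0) 1 : I → ℤ) = vv 4 + vv 2 - (vv 6 - vv 2 -
    (vv 7 + (7 : ℤ) • vv 2 - (vv 3 - vv 5 + (2 : ℤ) • vv 2))) := by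
  simp only [vv_eq]; decide
lemma e1_eq : (Pi.single (Sum.inl 1) 1 : I → ℤ) = vv 5 - (2 : ℤ) • vv 2 - (vv 4 + vv 2 - (vv 6 - vv 2 -
    (vv 7 + (7 : ℤ) • vv 2 - (vv 3 - vv 5 + (2 : ℤ) • vv 2)))) := by
  simp only [vv_eq]; decide

lemma yS_pp (i : Fin 9) : yS (pp i) = fun k => (i.val : ℤ) * (Pi.single (Sum.inr 1) 1 : I → ℤ) k := by
  rw [yS, phi_pp]
  funext k
  rcases k with k | k
  · simp only [yY, Sum.elim_inl]
    rw [if_neg (Fin.succ_ne_zero k).symm]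
    simp
  · fin_cases k
    · simp [yY]
    · simp [yY]

theorem gen (M : AddSubgroup ((I → ℤ) × (I → ℤ)))
    (hR : ∀ u w, (u, w) ∈ M → ((fun i => (nn i : ℤ) * w i), u) ∈ M)
    (hb : ∀ s, (xS s, yS s) ∈ M) : M = ⊤ := by
  have hv : ∀ i : Fin 9, (vv i, (0 : I → ℤ)) ∈ M := by
    intro i
    have h1 := M.sub_mem (hb (pp i)) (M.zsmul_mem (hb (pp 1)) (i.val : ℤ))
    have h2 : (xS (pp i), yS (pp i)) - (i.val : ℤ) • (xS (pp 1), yS (pp 1)) =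
        (vv i, (0 : I → ℤ)) := by
      refine Prod.ext ?_ ?_
      · funext k
        simp [vv]
      · funext k
        rw [Prod.snd_sub, Prod.smul_snd, yS_pp i, yS_pp 1]
        simp
    rwa [h2] at h1
  have hadd : ∀ u v : I → ℤ, (u, (0 : I → ℤ)) ∈ M → (v, (0 : I → ℤ)) ∈ M →
      (u + v, (0 : I → ℤ)) ∈ M := by
    intro u v hu hv
    have := M.add_mem hu hv
    simpa using this
  have hsub : ∀ u v : I → ℤ, (u, (0 : I → ℤ)) ∈ M → (v, (0 : I → ℤ)) ∈ M →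
      (u - v, (0 : I → ℤ)) ∈ M := by
    intro u v hu hv
    have := M.sub_mem hu hv
    simpa using this
  have hsmul : ∀ (n : ℤ) (u : I → ℤ), (u, (0 : I → ℤ)) ∈ M → (n • u, (0 : I → ℤ)) ∈ M := by
    intro n u hu
    have := M.zsmul_mem hu n
    simpa using this
  have h2 : (vv 3 - vv 5 + (2 : ℤ) • vv 2, (0 : I → ℤ)) ∈ M :=
    hadd _ _ (hsub _ _ (hv 3) (hv 5)) (hsmul _ _ (hv 2))
  have h3 : (vv 7 + (7 : ℤ) • vv 2 - (vv 3 - vv 5 + (2 : ℤ) • vv 2), (0 : I → ℤ)) ∈ M :=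
    hsub _ _ (hadd _ _ (hv 7) (hsmul _ _ (hv 2))) h2
  have h4 : (vv 6 - vv 2 - (vv 7 + (7 : ℤ) • vv 2 - (vv 3 - vv 5 + (2 : ℤ) • vv 2)),
      (0 : I → ℤ)) ∈ M := hsub _ _ (hsub _ _ (hv 6) (hv 2)) h3
  have h0 : (vv 4 + vv 2 - (vv 6 - vv 2 - (vv 7 + (7 : ℤ) • vv 2 -
      (vv 3 - vv 5 + (2 : ℤ) • vv 2))), (0 : I → ℤ)) ∈ M :=
    hsub _ _ (hadd _ _ (hv 4) (hv 2)) h4
  have h1 : (vv 5 - (2 : ℤ) • vv 2 - (vv 4 + vv 2 - (vv 6 - vv 2 - (vv 7 + (7 : ℤ) • vv 2 -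
      (vv 3 - vv 5 + (2 : ℤ) • vv 2)))), (0 : I → ℤ)) ∈ M :=
    hsub _ _ (hsub _ _ (hv 5) (hsmul _ _ (hv 2))) h0
  have hsingle : ∀ k : I, ((Pi.single k 1 : I → ℤ), (0 : I → ℤ)) ∈ M := by
    intro k
    rcases k with k | k
    · fin_cases k
      · exact e0_eq ▸ h0
      · exact e1_eq ▸ h1
      · exact e2_eq ▸ h2
      · exact e3_eq ▸ h3
      · exact e4_eq ▸ h4
    · fin_cases k
      · exact er_eq ▸ hv 2
      · exact ez_eq ▸ hadd _ _ (hv 8) (hsmul _ _ (hv 2))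
  have hfst : ∀ u : I → ℤ, (u, (0 : I → ℤ)) ∈ M := by
    intro u
    have h5 : (u, (0 : I → ℤ)) = ∑ k : I, (u k) • ((Pi.single k 1 : I → ℤ), (0 : I → ℤ)) := by
      refine Prod.ext ?_ ?_
      · rw [Prod.fst_sum]
        funext j
        simp only [Prod.smul_fst, Finset.sum_apply, Pi.smul_apply, smul_eq_mul]
        rw [Finset.sum_eq_single j]
        · simp
        · intro b _ hb
          rw [Pi.single_eq_of_ne hb.symm, mul_zero]
        · simp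
      · rw [Prod.snd_sum]
        simp
    rw [h5]
    exact M.sum_mem fun k _ => M.zsmul_mem (hsingle k) _
  rw [eq_top_iff]
  rintro ⟨u, w⟩ -
  have h6 : ((0 : I → ℤ), w) ∈ M := by
    have := hR w 0 (hfst w)
    have h7 : (fun i => (nn i : ℤ) * (0 : I → ℤ) i) = 0 := by funext i; simp
    rwa [h7] at this
  have := M.add_mem (hfst u) h6
  simpa using this

end Pool.Agent.Lib.MP_5f557b_an
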