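import Mathlib
import Pool.Agent.Lib.MP_5f557b_an.Gen

set_option autoImplicit false
set_option linter.unusedSectionVars false

open Finset Matrix

namespace Pool.Agent.Lib.MP_5f557b_an

lemma card_II : Fintype.card (I ⊕ I) = 14 := by decide

noncomputable def eJ : (I ⊕ I) ≃ Fin 14 := Fintype.equivFinOfCardEq card_II

/-- the vector with two halves -/
noncomputable def comb {K : Type*} (u w : I → K) : Fin 14 → K := fun m => Sum.elim u w (eJ.symm m)

lemma comb_comp {K : Type*} (u w : I → K) : comb u w ∘ eJ = Sum.elim u w := by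
  funext k
  simp [comb]

lemma comb_inl {K : Type*} (u w : I → K) (i : I) : comb u w (eJ (Sum.inl i)) = u i := by
  simp [comb]

lemma comb_inr {K : Type*} (u w : I → K) (i : I) : comb u w (eJ (Sum.inr i)) = w i := by
  simp [comb]

lemma exists_comb {K : Type*} (v : Fin 14 → K) :
    v = comb (fun i => v (eJ (Sum.inl i))) (fun i => v (eJ (Sum.inr i))) := by
  funext m
  obtain ⟨k, rfl⟩ := eJ.surjective m
  rcases k with k | k
  · rw [comb_inl]
  · rw [comb_inr]

lemma comb_ext {K : Type*} {u w u' w' : I → K} (h : comb u w = comb u' w') : u = u' ∧ w = w' := by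
  constructor
  · funext i
    rw [← comb_inl u w, h, comb_inl]
  · funext i
    rw [← comb_inr u w, h, comb_inr]

lemma comb_add {K : Type*} [Add K] (u w u' w' : I → K) :
    comb u w + comb u' w' = comb (u + u') (w + w') := by
  funext m
  obtain ⟨k, rfl⟩ := eJ.surjective m
  rcases k with k | k
  · simp only [Pi.add_apply, comb_inl]
  · simp only [Pi.add_apply, comb_inr]

lemma comb_sub {K : Type*} [Sub K] (u w u' w' : I → K) :
    comb u w - comb u' w' = comb (u - u') (w - w') := by
  funext m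
  obtain ⟨k, rfl⟩ := eJ.surjective m
  rcases k with k | k
  · simp only [Pi.sub_apply, comb_inl]
  · simp only [Pi.sub_apply, comb_inr]

lemma comb_zero {K : Type*} [Zero K] : comb (0 : I → K) 0 = 0 := by
  funext m
  obtain ⟨k, rfl⟩ := eJ.surjective m
  rcases k with k | k
  · simp only [comb_inl, Pi.zero_apply]
  · simp only [comb_inr, Pi.zero_apply]

lemma comb_map {K K' : Type*} (g : K → K') (u w : I → K) :
    (fun m => g (comb u w m)) = comb (fun i => g (u i)) (fun i => g (w i)) := by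
  funext m
  obtain ⟨k, rfl⟩ := eJ.surjective m
  rcases k with k | k
  · simp only [comb_inl]
  · simp only [comb_inr]

lemma sum_comb {K : Type*} [NonUnitalNonAssocSemiring K] (u w : I → K) (v : Fin 14 → K) :
    ∑ m, comb u w m * v m =
      ∑ i, u i * v (eJ (Sum.inl i)) + ∑ i, w i * v (eJ (Sum.inr i)) := by
  rw [← eJ.sum_comp, Fintype.sum_sum_type]
  simp only [comb_inl, comb_inr]

/-- the expanding matrix -/
noncomputable def RR : Matrix (Fin 14) (Fin 14) ℤ :=
  (Matrix.fromBlocks 0 (Matrix.diagonal fun i : I => (nn i : ℤ)) 1 0).submatrix eJ.symm eJ.symm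

lemma RR_map {K : Type*} [Ring K] : RR.map (Int.cast : ℤ → K) =
    (Matrix.fromBlocks 0 (Matrix.diagonal fun i : I => (nn i : K)) 1 0).submatrix eJ.symm eJ.symm := by
  rw [RR, ← Matrix.submatrix_map, Matrix.fromBlocks_map]
  congr 2
  · ext i j; simp
  · ext i j
    by_cases h : i = j
    · subst h; simp
    · simp [h]
  · ext i j
    by_cases h : i = j
    · subst h; simp
    · simp [h]
  · ext i j; simp

lemma blocks_mulVec {K : Type*} [CommRing K] (u w : I → K) :
    ((Matrix.fromBlocks 0 (Matrix.diagonal fun i : I => (nn i : K)) 1 0).submatrix eJ.symm eJ.symm)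
      *ᵥ comb u w = comb (fun i => (nn i : K) * w i) u := by
  rw [Matrix.submatrix_mulVec_equiv]
  have h : comb u w ∘ eJ.symm.symm = Sum.elim u w := comb_comp u w
  rw [h, Matrix.fromBlocks_mulVec]
  funext m
  obtain ⟨k, rfl⟩ := eJ.surjective m
  rcases k with k | k
  · rw [comb_inl]
    simp [Matrix.mulVec_diagonal]
  · rw [comb_inr]
    simp

lemma RR_map_mulVec {K : Type*} [CommRing K] (u w : I → K) :
    (RR.map (Int.cast : ℤ → K)) *ᵥ comb u w = comb (fun i => (nn i : K) * w i) u := by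
  rw [RR_map, blocks_mulVec]

lemma RR_mulVec (u w : I → ℤ) : RR *ᵥ comb u w = comb (fun i => (nn i : ℤ) * w i) u := by
  rw [RR, ← blocks_mulVec]

lemma RR_expanding (z : ℂ) (hz : (RR.map (Int.cast : ℤ → ℂ)).charpoly.IsRoot z) : 1 < ‖z‖ := by
  rw [Polynomial.IsRoot.def, Matrix.eval_charpoly] at hz
  obtain ⟨v, hv0, hv⟩ := Matrix.exists_mulVec_eq_zero_iff.mpr hz
  rw [Matrix.sub_mulVec, sub_eq_zero] at hv
  rw [exists_comb v] at hv hv0
  set u : I → ℂ := fun i => v (eJ (Sum.inl i))
  set w : I → ℂ := fun i => v (eJ (Sum.inr i))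
  rw [RR_map_mulVec] at hv
  have h1 : (Matrix.scalar (Fin 14) z) *ᵥ comb u w = comb (fun i => z * u i) (fun i => z * w i) := by
    rw [← comb_map (fun t => z * t)]
    funext m
    simp [Matrix.scalar_apply, Matrix.mulVec_diagonal]
  rw [h1] at hv
  obtain ⟨h2, h3⟩ := comb_ext hv
  have h4 : ∃ i, w i ≠ 0 := by
    by_contra hcon
    push Not at hcon
    apply hv0
    have hw : w = 0 := funext hcon
    have hu : u = 0 := by
      rw [← h3, hw]
      funext i
      simp
    rw [hw, hu, comb_zero]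
  obtain ⟨i, hi⟩ := h4
  have h5 : z * u i = (nn i : ℂ) * w i := congrFun h2 i
  have h6 : z * w i = u i := congrFun h3 i
  rw [← h6] at h5
  have h7 : z * z = (nn i : ℂ) := by
    have : (z * z - (nn i : ℂ)) * w i = 0 := by linear_combination h5
    rcases mul_eq_zero.mp this with h | h
    · exact sub_eq_zero.mp h
    · exact absurd h hi
  have h8 : ‖z‖ * ‖z‖ = (nn i : ℝ) := by
    rw [← norm_mul, h7, Complex.norm_natCast]
  have h9 : (4 : ℝ) ≤ (nn i : ℝ) := by exact_mod_cast nn_ge i
  nlinarith [norm_nonneg z]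

lemma RR_det_sq : RR.det ^ 2 = ((19440 : ℤ) ^ 2) ^ 2 := by
  have h1 : RR * RR = (Matrix.fromBlocks (Matrix.diagonal fun i : I => (nn i : ℤ)) 0 0
      (Matrix.diagonal fun i : I => (nn i : ℤ))).submatrix eJ.symm eJ.symm := by
    rw [RR, Matrix.submatrix_mul_equiv, Matrix.fromBlocks_multiply]
    simp
  have h2 : (∏ i : I, (nn i : ℤ)) = 19440 ^ 2 := by
    have := prod_nn
    exact_mod_cast this
  rw [pow_two, ← Matrix.det_mul, h1, Matrix.det_submatrix_equiv_self,
    Matrix.det_fromBlocks_zero₂₁, Matrix.det_diagonal, h2]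
  ring

lemma RR_det_abs : |RR.det| = 19440 ^ 2 := by
  have h := RR_det_sq
  have h1 : |RR.det| ^ 2 = (19440 ^ 2) ^ 2 := by rw [sq_abs, h]
  have h2 : (0 : ℤ) ≤ |RR.det| := abs_nonneg _
  exact (pow_left_inj₀ h2 (by norm_num) (by norm_num)).mp h1

lemma RR_det_ne : RR.det ≠ 0 := by
  intro h
  have := RR_det_abs
  rw [h] at this
  norm_num at this

lemma RR_inv_mulVec (u w : I → ℝ) :
    (RR.map (Int.cast : ℤ → ℝ))⁻¹ *ᵥ comb u w = comb w (fun i => u i / (nn i : ℝ)) := by
  have hdet : IsUnit (RR.map (Int.cast : ℤ → ℝ)).det := by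
    have h1 : (RR.map (Int.cast : ℤ → ℝ)).det = ((RR.det : ℤ) : ℝ) := by
      have := (Int.castRingHom ℝ).map_det RR
      rw [eq_intCast] at this
      rw [this]
      rfl
    rw [h1, isUnit_iff_ne_zero]
    exact_mod_cast RR_det_ne
  have h2 : comb u w = (RR.map (Int.cast : ℤ → ℝ)) *ᵥ comb w (fun i => u i / (nn i : ℝ)) := by
    rw [RR_map_mulVec]
    congr 1
    funext i
    have : (4 : ℝ) ≤ (nn i : ℝ) := by exact_mod_cast nn_ge i
    field_simp
  rw [h2, Matrix.mulVec_mulVec, Matrix.nonsing_inv_mul _ hdet, Matrix.one_mulVec]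

/-- the digits -/
noncomputable def bb (s : S) : Fin 14 → ℤ := comb (xS s) (yS s)

lemma xS_cong {s s' : S} (h : ∀ i, (nn i : ℤ) ∣ xS s i - xS s' i) : s = s' := by
  refine (tile_inj s s' (phi s) (phi s) fun i => ?_).1
  rw [add_sub_add_right_eq_sub]
  exact h i

lemma bb_inj : Function.Injective bb := by
  intro s s' h
  apply xS_cong
  intro i
  rw [(comb_ext h).1, sub_self]
  exact dvd_zero _

lemma bb_simple {s s' : S} (v : Fin 14 → ℤ) (h : RR *ᵥ v = bb s - bb s') : s = s' := by
  apply xS_cong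
  intro i
  rw [exists_comb v, RR_mulVec, bb, bb, comb_sub] at h
  have := congrFun (comb_ext h).1 i
  rw [Pi.sub_apply] at this
  rw [← this]
  exact dvd_mul_right _ _

/-- the digit set -/
noncomputable def BB : Finset (Fin 14 → ℤ) := Finset.univ.image bb

lemma card_BB : BB.card = 19440 := by
  rw [BB, Finset.card_image_of_injective _ bb_inj, Finset.card_univ, card_S]

lemma zero_mem_BB : (0 : Fin 14 → ℤ) ∈ BB := by
  rw [BB, Finset.mem_image]
  refine ⟨pp 0, Finset.mem_univ _, ?_⟩
  have h1 : xS (pp 0) = 0 := by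
    rw [xS_pp]
    decide
  have h2 : yS (pp 0) = 0 := by
    rw [yS_pp]
    funext k
    simp
  rw [bb, h1, h2, comb_zero]

lemma closure_eq_top :
    AddSubgroup.closure {v : Fin 14 → ℤ | ∃ k : ℕ, ∃ b ∈ BB, v = (RR ^ k) *ᵥ b} = ⊤ := by
  set C := AddSubgroup.closure {v : Fin 14 → ℤ | ∃ k : ℕ, ∃ b ∈ BB, v = (RR ^ k) *ᵥ b} with hC
  have hR : ∀ v ∈ C, RR *ᵥ v ∈ C := by
    intro v hv
    have h1 : C ≤ C.comap (RR.mulVecLin.toAddMonoidHom) := by
      rw [hC, AddSubgroup.closure_le]
      rintro _ ⟨k, b, hb, rfl⟩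
      rw [SetLike.mem_coe, AddSubgroup.mem_comap]
      apply AddSubgroup.subset_closure
      refine ⟨k + 1, b, hb, ?_⟩
      rw [pow_succ', ← Matrix.mulVec_mulVec]
      rfl
    exact h1 hv
  have hb : ∀ s, bb s ∈ C := by
    intro s
    apply AddSubgroup.subset_closure
    refine ⟨0, bb s, ?_, ?_⟩
    · exact Finset.mem_image_of_mem _ (Finset.mem_univ _)
    · rw [pow_zero, Matrix.one_mulVec]
  let cb : ((I → ℤ) × (I → ℤ)) →+ (Fin 14 → ℤ) :=
    { toFun := fun p => comb p.1 p.2
      map_zero' := comb_zero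
      map_add' := fun p q => (comb_add p.1 p.2 q.1 q.2).symm }
  have hM : C.comap cb = ⊤ := by
    apply gen
    · intro u w huw
      have h1 : RR *ᵥ comb u w ∈ C := hR _ huw
      rw [RR_mulVec] at h1
      exact h1
    · intro s
      exact hb s
  rw [eq_top_iff]
  intro v _
  rw [exists_comb v]
  have : ((fun i => v (eJ (Sum.inl i)), fun i => v (eJ (Sum.inr i))) : (I → ℤ) × (I → ℤ)) ∈ C.comap cb := by
    rw [hM]
    exact AddSubgroup.mem_top _
  exact this

end Pool.Agent.Lib.MP_5f557b_an
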