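import Mathlib
import Pool.Agent.Lib.MP_5f557b_an.Mat
import Pool.Agent.Lib.MP_5f557b_an.Complete

set_option autoImplicit false
set_option linter.unusedSectionVars false

open Finset Matrix MeasureTheory
open scoped ENNReal

namespace Pool.Agent.Lib.MP_5f557b_an

/-- the two halves put together -/
noncomputable def cm (z : (I → ℝ) × (I → ℝ)) : Fin 14 → ℝ := comb z.1 z.2

lemma measurable_cm : Measurable cm := by
  refine measurable_pi_lambda _ fun m => ?_
  obtain ⟨k, rfl⟩ := eJ.surjective m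
  rcases k with k | k
  · simp only [cm, comb_inl]
    fun_prop
  · simp only [cm, comb_inr]
    fun_prop

lemma sum_cm (l : I → ℤ) (z : (I → ℝ) × (I → ℝ)) :
    ∑ m, comb (0 : I → ℝ) (fun i => (l i : ℝ)) m * cm z m = ∑ i, (l i : ℝ) * z.2 i := by
  rw [sum_comb]
  simp only [cm, comb_inr, Pi.zero_apply, zero_mul, Finset.sum_const_zero, zero_add]

/-- the frequencies -/
def Lam : Set (Fin 14 → ℝ) := {v | ∃ l : I → ℤ, v = comb (0 : I → ℝ) (fun i => (l i : ℝ))}

/-- the affine maps -/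
noncomputable def aff (b : Fin 14 → ℤ) (x : Fin 14 → ℝ) : Fin 14 → ℝ :=
  (RR.map (Int.cast : ℤ → ℝ))⁻¹ *ᵥ (x + fun i => (b i : ℝ))

lemma measurable_aff (b : Fin 14 → ℤ) : Measurable (aff b) := by
  refine Continuous.measurable ?_
  unfold aff
  refine Continuous.matrix_mulVec continuous_const ?_
  fun_prop

lemma aff_cm (D : Sys I S) (hn : D.n = nn) (hx : D.x = xS) (hy : D.y = yS) (s : S)
    (z : (I → ℝ) × (I → ℝ)) :
    aff (bb s) (cm z) = cm (D.step s z) := by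
  have h1 : (fun i => (bb s i : ℝ)) = comb (fun i => (xS s i : ℝ)) (fun i => (yS s i : ℝ)) := by
    rw [← comb_map (fun t : ℤ => (t : ℝ))]
    rfl
  rw [aff, h1, cm, comb_add, RR_inv_mulVec, cm, Sys.step, hn, hx, hy]
  rfl

section generic

variable {X : Type*} [Fintype X] [MeasurableSpace X] [MeasurableSingletonClass X] [Nonempty X]
  (D : Sys I X)

lemma selfaff_aux (B : Finset (Fin 14 → ℤ)) (bb : X → Fin 14 → ℤ)
    (hbb : Function.Injective bb) (hB : ∀ v, v ∈ B ↔ ∃ s, bb s = v)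
    (aff : (Fin 14 → ℤ) → (Fin 14 → ℝ) → (Fin 14 → ℝ)) (haff : ∀ b, Measurable (aff b))
    (h : ∀ s z, aff (bb s) (cm z) = cm (D.step s z)) :
    D.mu.map cm = ((B.card : ℝ≥0∞)⁻¹) • ∑ b ∈ B, (D.mu.map cm).map (aff b) := by
  classical
  have hcm := measurable_cm
  have hBi : B = Finset.univ.image bb := by
    ext v
    rw [hB]
    simp
  have hc : B.card = Fintype.card X := by
    rw [hBi, Finset.card_image_of_injective _ hbb, Finset.card_univ]
  rw [hc, hBi, Finset.sum_image fun s _ s' _ h => hbb h]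
  ext A hA
  rw [Measure.smul_apply, Measure.finsetSum_apply, smul_eq_mul,
    Measure.map_apply hcm hA]
  conv_lhs => rw [D.mu_selfaffine]
  rw [Measure.smul_apply, Measure.finsetSum_apply, smul_eq_mul]
  congr 1
  refine Finset.sum_congr rfl fun s _ => ?_
  rw [Measure.map_apply (D.measurable_step s) (hcm hA),
    Measure.map_apply (haff _) hA, Measure.map_apply hcm (haff _ hA)]
  congr 1
  ext z
  simp only [Set.mem_preimage]
  rw [h s z]

lemma continuous_exp_lin (l : Fin 14 → ℝ) :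
    Continuous fun x : Fin 14 → ℝ => ee (∑ i, l i * x i) := by
  refine continuous_ee.comp ?_
  fun_prop

lemma orth_aux : ∀ l ∈ Lam, ∀ l' ∈ Lam,
    (l = l' → ∫ x, ee (∑ i, (l i - l' i) * x i) ∂(D.mu.map cm) = 1) ∧
    (l ≠ l' → ∫ x, ee (∑ i, (l i - l' i) * x i) ∂(D.mu.map cm) = 0) := by
  have hcm := measurable_cm
  have hprob : IsProbabilityMeasure (D.mu.map cm) :=
    Measure.isProbabilityMeasure_map hcm.aemeasurable
  rintro _ ⟨l, rfl⟩ _ ⟨l', rfl⟩
  constructor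
  · intro h
    rw [h]
    simp [ee_zero]
  · intro h
    have hll : l - l' ≠ 0 := by
      intro h0
      apply h
      rw [sub_eq_zero.mp h0]
    rw [integral_map hcm.aemeasurable]
    · rw [← D.orth (l - l') hll]
      congr 1
      funext z
      congr 1
      have h2 : (fun m => comb (0 : I → ℝ) (fun i => (l i : ℝ)) m -
          comb (0 : I → ℝ) (fun i => (l' i : ℝ)) m) =
          comb (0 : I → ℝ) (fun i => (((l - l') i : ℤ) : ℝ)) := by
        have h3 := comb_sub (0 : I → ℝ) (fun i => (l i : ℝ)) (0 : I → ℝ) (fun i => (l' i : ℝ))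
        have h4 : (fun m => comb (0 : I → ℝ) (fun i => (l i : ℝ)) m -
          comb (0 : I → ℝ) (fun i => (l' i : ℝ)) m) = comb (0 : I → ℝ) (fun i => (l i : ℝ)) -
          comb (0 : I → ℝ) (fun i => (l' i : ℝ)) := rfl
        rw [h4, h3, sub_zero]
        congr 1
        funext i
        simp
      rw [← sum_cm]
      refine Finset.sum_congr rfl fun m _ => ?_
      rw [← congrFun h2 m]
    · have := continuous_exp_lin (fun m => comb (0 : I → ℝ) (fun i => (l i : ℝ)) m -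
          comb (0 : I → ℝ) (fun i => (l' i : ℝ)) m)
      exact this.measurable.aestronglyMeasurable

lemma complete_aux : ∀ f : (Fin 14 → ℝ) → ℂ, MemLp f 2 (D.mu.map cm) →
    (∀ l ∈ Lam, ∫ x, f x * ee (-(∑ i, l i * x i)) ∂(D.mu.map cm) = 0) →
    f =ᵐ[D.mu.map cm] 0 := by
  have hcm := measurable_cm
  intro f hf h
  have hf' : MemLp (f ∘ cm) 2 D.mu := (memLp_map_measure_iff hf.1 hcm.aemeasurable).mp hf
  have h1 : (f ∘ cm) =ᵐ[D.mu] 0 := by
    refine D.complete _ hf' fun l => ?_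
    have h2 := h _ ⟨l, rfl⟩
    rw [integral_map hcm.aemeasurable] at h2
    · rw [← h2]
      congr 1
      funext z
      rw [sum_cm]
      rfl
    · refine hf.1.mul ?_
      have := (continuous_exp_lin (fun m => - comb (0 : I → ℝ) (fun i => (l i : ℝ)) m))
      refine (this.congr fun x => ?_).measurable.aestronglyMeasurable
      congr 1
      rw [← Finset.sum_neg_distrib]
      exact Finset.sum_congr rfl fun m _ => neg_mul _ _
  obtain ⟨f', hf'm, hff'⟩ := hf.1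
  have hf'meas : Measurable f' := hf'm.measurable
  have h2 : (f ∘ cm) =ᵐ[D.mu] (f' ∘ cm) := ae_eq_comp hcm.aemeasurable hff'
  have h3 : ∀ᵐ z ∂D.mu, f' (cm z) = 0 := by
    filter_upwards [h1, h2] with z hz1 hz2
    rw [Function.comp_apply, Pi.zero_apply] at hz1
    rw [Function.comp_apply, Function.comp_apply] at hz2
    rw [← hz2, hz1]
  have h4 : ∀ᵐ x ∂(D.mu.map cm), f' x = 0 :=
    (ae_map_iff hcm.aemeasurable (hf'meas (measurableSet_singleton 0))).mpr h3
  filter_upwards [hff', h4] with x hx1 hx2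
  rw [hx1, hx2]
  rfl

end generic

lemma mem_BB (v : Fin 14 → ℤ) : v ∈ BB ↔ ∃ s, bb s = v := by
  rw [BB, Finset.mem_image]
  constructor
  · rintro ⟨s, -, hs⟩
    exact ⟨s, hs⟩
  · rintro ⟨s, hs⟩
    exact ⟨s, Finset.mem_univ _, hs⟩

theorem exists_main : ∃ μ : Measure (Fin 14 → ℝ), IsProbabilityMeasure μ ∧
    μ = ((BB.card : ℝ≥0∞)⁻¹) • ∑ b ∈ BB, μ.map (aff b) ∧
    (∀ l ∈ Lam, ∀ l' ∈ Lam,
      (l = l' → ∫ x, ee (∑ i, (l i - l' i) * x i) ∂μ = 1) ∧
      (l ≠ l' → ∫ x, ee (∑ i, (l i - l' i) * x i) ∂μ = 0)) ∧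
    (∀ f : (Fin 14 → ℝ) → ℂ, MemLp f 2 μ →
      (∀ l ∈ Lam, ∫ x, f x * ee (-(∑ i, l i * x i)) ∂μ = 0) → f =ᵐ[μ] 0) := by
  let _ : MeasurableSpace S := ⊤
  have : MeasurableSingletonClass S := ⟨fun _ => trivial⟩
  have : Nonempty S := ⟨sg⟩
  obtain ⟨D, hn, hx, hy⟩ := exists_sys
  exact ⟨D.mu.map cm, Measure.isProbabilityMeasure_map measurable_cm.aemeasurable,
    selfaff_aux D BB bb bb_inj mem_BB aff measurable_aff (aff_cm D hn hx hy),
    orth_aux D, complete_aux D⟩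

theorem aff_eq (μ : Measure (Fin 14 → ℝ)) : (fun b : Fin 14 → ℤ => μ.map (aff b)) =
    fun b : Fin 14 → ℤ =>
      μ.map (fun x => (RR.map (Int.cast : ℤ → ℝ))⁻¹ *ᵥ (x + fun i => (b i : ℝ))) := rfl

theorem self_conv (μ : Measure (Fin 14 → ℝ))
    (h : μ = ((BB.card : ℝ≥0∞)⁻¹) • ∑ b ∈ BB, μ.map (aff b)) :
    μ = ((BB.card : ℝ≥0∞)⁻¹) • ∑ b ∈ BB,
      μ.map (fun x => (RR.map (Int.cast : ℤ → ℝ))⁻¹ *ᵥ (x + fun i => (b i : ℝ)))  := by
  rw [← aff_eq μ]
  exact h

theorem no_L (L : Finset (Fin 14 → ℤ)) (hL : L.card = BB.card)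
    (h : ∀ l ∈ L, ∀ l' ∈ L, l ≠ l' → ∑ b ∈ BB, ee (∑ i,
      ((RR.map (Int.cast : ℤ → ℝ))⁻¹ *ᵥ (fun j => (b j : ℝ))) i * ((l i : ℝ) - (l' i : ℝ))) = 0) :
    False := by
  rw [card_BB] at hL
  refine nonspectral L (fun l i => l (eJ (Sum.inr i))) hL fun l hl l' hl' hne => ?_
  rw [← h l hl l' hl' hne, BB, Finset.sum_image fun s _ s' _ h => bb_inj h]
  refine Finset.sum_congr rfl fun s _ => ?_
  have h1 : (fun i => (bb s i : ℝ)) = comb (fun i => (xS s i : ℝ)) (fun i => (yS s i : ℝ)) := by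
    rw [← comb_map (fun t : ℤ => (t : ℝ))]
    rfl
  rw [h1, RR_inv_mulVec, sum_comb, ee_add]
  have h2 : ee (∑ i, (yS s i : ℝ) * ((l (eJ (Sum.inl i)) : ℝ) - (l' (eJ (Sum.inl i)) : ℝ))) = 1 := by
    rw [← ee_int (∑ i, yS s i * (l (eJ (Sum.inl i)) - l' (eJ (Sum.inl i))))]
    congr 1
    push_cast
    rfl
  rw [h2, one_mul]
  congr 1
  refine Finset.sum_congr rfl fun i _ => ?_
  ring

end Pool.Agent.Lib.MP_5f557b_an
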