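import Mathlib
import Pool.Agent.Lib.MP_5f557b_an.Final

set_option autoImplicit false

open MeasureTheory Matrix Filter Finset
open scoped ENNReal Topology

namespace Pool.Agent.Lib.MP_5f557b_an

/-- the inverse of `RR` as a continuous linear map -/
noncomputable def ainv : (Fin 14 → ℝ) →L[ℝ] (Fin 14 → ℝ) :=
  LinearMap.toContinuousLinearMap (Matrix.mulVecLin (RR.map (Int.cast : ℤ → ℝ))⁻¹)

lemma ainv_apply (x : Fin 14 → ℝ) : ainv x = (RR.map (Int.cast : ℤ → ℝ))⁻¹ *ᵥ x := rfl

lemma aff_ainv (b : Fin 14 → ℤ) (x : Fin 14 → ℝ) :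
    aff b x = ainv x + ainv (fun i => (b i : ℝ)) := by
  rw [← map_add]
  rfl

/-- the modulus belonging to a coordinate -/
noncomputable def nM (m : Fin 14) : ℕ := Sum.elim nn nn (eJ.symm m)

lemma nM_ge (m : Fin 14) : (4 : ℝ) ≤ (nM m : ℝ) := by
  rw [nM]
  rcases eJ.symm m with k | k
  · exact_mod_cast nn_ge k
  · exact_mod_cast nn_ge k

lemma ainv_ainv (x : Fin 14 → ℝ) (m : Fin 14) : ainv (ainv x) m = x m / (nM m : ℝ) := by
  rw [exists_comb x, ainv_apply, ainv_apply, RR_inv_mulVec, RR_inv_mulVec]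
  obtain ⟨k, rfl⟩ := eJ.surjective m
  rcases k with k | k
  · rw [comb_inl, comb_inl, nM, Equiv.symm_apply_apply]
    rfl
  · rw [comb_inr, comb_inr, nM, Equiv.symm_apply_apply]
    rfl

/-- twofold application of the inverse -/
noncomputable def ainv2 : (Fin 14 → ℝ) →L[ℝ] (Fin 14 → ℝ) := ainv.comp ainv

lemma ainv2_pow (k : ℕ) (x : Fin 14 → ℝ) (m : Fin 14) :
    (ainv2^[k] x) m = x m / (nM m : ℝ) ^ k := by
  induction k generalizing x with
  | zero => simp
  | succ k ih =>
    rw [Function.iterate_succ_apply', pow_succ, ← div_div, ← ih x]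
    exact ainv_ainv _ m

lemma ainv2_tendsto (x : Fin 14 → ℝ) : Tendsto (fun k : ℕ => ainv2^[k] x) atTop (𝓝 0) := by
  rw [tendsto_pi_nhds]
  intro m
  have h1 : (fun k : ℕ => (ainv2^[k] x) m) = fun k : ℕ => x m * (1 / (nM m : ℝ)) ^ k := by
    funext k
    rw [ainv2_pow, one_div, inv_pow, div_eq_mul_inv]
  rw [h1, Pi.zero_apply]
  have h2 := nM_ge m
  have h3 : Tendsto (fun k : ℕ => (1 / (nM m : ℝ)) ^ k) atTop (𝓝 0) := by
    apply tendsto_pow_atTop_nhds_zero_of_lt_one
    · positivity
    · rw [div_lt_one (by linarith)]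
      linarith
  simpa using h3.const_mul (x m)

/-- iterate of a functional along the inverse -/
noncomputable def pull (L : StrongDual ℝ (Fin 14 → ℝ)) (k : ℕ) : StrongDual ℝ (Fin 14 → ℝ) :=
  L.comp (ainv2 ^ k)

lemma pull_apply (L : StrongDual ℝ (Fin 14 → ℝ)) (k : ℕ) (x : Fin 14 → ℝ) :
    pull L k x = L (ainv2^[k] x) := by
  rw [pull, ContinuousLinearMap.comp_apply]
  congr 1
  induction k generalizing x with
  | zero => rfl
  | succ k ih =>
    rw [pow_succ, ContinuousLinearMap.mul_apply, Function.iterate_succ_apply]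
    exact ih _

lemma pull_succ (L : StrongDual ℝ (Fin 14 → ℝ)) (k : ℕ) :
    pull L (k + 1) = ((pull L k).comp ainv).comp ainv := by
  ext x
  rw [pull_apply, Function.iterate_succ_apply]
  rw [ContinuousLinearMap.comp_apply, ContinuousLinearMap.comp_apply, pull_apply]
  rfl

/-- the characteristic function along `pull` tends to one -/
lemma charFun_tendsto (μ : Measure (Fin 14 → ℝ)) [IsProbabilityMeasure μ]
    (L : StrongDual ℝ (Fin 14 → ℝ)) :
    Tendsto (fun k => charFunDual μ (pull L k)) atTop (𝓝 1) := by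
  have h1 : (1 : ℂ) = ∫ _x : Fin 14 → ℝ, (1 : ℂ) ∂μ := by simp
  rw [h1]
  simp only [charFunDual_apply]
  refine tendsto_integral_of_dominated_convergence (fun _ => (1 : ℝ)) ?_ (integrable_const _) ?_ ?_
  · intro k
    refine Continuous.aestronglyMeasurable ?_
    fun_prop
  · intro k
    exact Eventually.of_forall fun x => (Complex.norm_exp_ofReal_mul_I _).le
  · refine Eventually.of_forall fun x => ?_
    have h2 : Tendsto (fun k : ℕ => pull L k x) atTop (𝓝 0) := by
      simp only [pull_apply]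
      have h3 := (L.continuous.tendsto 0).comp (ainv2_tendsto x)
      rw [map_zero] at h3
      exact h3
    have h4 : Continuous fun t : ℝ => Complex.exp (t * Complex.I) := by fun_prop
    have h5 := (h4.tendsto 0).comp h2
    simp only [Complex.ofReal_zero, zero_mul, Complex.exp_zero] at h5
    exact h5

lemma charFun_rec (μ : Measure (Fin 14 → ℝ)) [IsProbabilityMeasure μ]
    (h : μ = ((BB.card : ℝ≥0∞)⁻¹) • ∑ b ∈ BB, μ.map (aff b))
    (L : StrongDual ℝ (Fin 14 → ℝ)) :
    charFunDual μ L = ((BB.card : ℂ)⁻¹ * ∑ b ∈ BB, Complex.exp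
      (L (ainv (fun i => (b i : ℝ))) * Complex.I)) * charFunDual μ (L.comp ainv) := by
  have hint : ∀ ν : Measure (Fin 14 → ℝ), IsFiniteMeasure ν → ∀ L : StrongDual ℝ (Fin 14 → ℝ),
      Integrable (fun x => Complex.exp (L x * Complex.I)) ν := by
    intro ν _ L
    refine Integrable.of_bound (C := 1) ?_ ?_
    · refine Continuous.aestronglyMeasurable ?_
      fun_prop
    · exact Eventually.of_forall fun x => (Complex.norm_exp_ofReal_mul_I _).le
  conv_lhs => rw [h]
  rw [charFunDual_apply, integral_smul_measure, integral_finsetSum_measure]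
  · have h1 : ∀ b ∈ BB, ∫ x, Complex.exp (L x * Complex.I) ∂(μ.map (aff b)) =
        Complex.exp (L (ainv (fun i => (b i : ℝ))) * Complex.I) * charFunDual μ (L.comp ainv) := by
      intro b _
      rw [integral_map (measurable_aff b).aemeasurable]
      · rw [charFunDual_apply, ← integral_const_mul]
        refine integral_congr_ae (Eventually.of_forall fun x => ?_)
        simp only
        rw [← Complex.exp_add, aff_ainv, map_add, ContinuousLinearMap.comp_apply]
        congr 1
        push_cast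
        ring
      · refine Continuous.aestronglyMeasurable ?_
        fun_prop
    rw [Finset.sum_congr rfl h1, ← Finset.sum_mul]
    rw [ENNReal.toReal_inv, ENNReal.toReal_natCast, Complex.real_smul]
    push_cast
    ring
  · intro b _
    have := Measure.isProbabilityMeasure_map (μ := μ) (measurable_aff b).aemeasurable
    exact hint _ inferInstance L

lemma norm_coef (L : StrongDual ℝ (Fin 14 → ℝ)) :
    ‖(BB.card : ℂ)⁻¹ * ∑ b ∈ BB, Complex.exp
      (L (ainv (fun i => (b i : ℝ))) * Complex.I)‖ ≤ 1 := by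
  have hc : (0 : ℝ) < (BB.card : ℝ) := by
    rw [card_BB]
    norm_num
  rw [norm_mul, norm_inv, Complex.norm_natCast, inv_mul_le_iff₀ hc, mul_one]
  refine (norm_sum_le _ _).trans ?_
  refine (Finset.sum_le_card_nsmul _ _ 1 fun b _ => ?_).trans ?_
  · exact (Complex.norm_exp_ofReal_mul_I _).le
  · rw [nsmul_eq_mul, mul_one]

/-- there is only one self-affine probability measure -/
theorem selfaff_unique (μ ν : Measure (Fin 14 → ℝ)) [IsProbabilityMeasure μ]
    [IsProbabilityMeasure ν]
    (hμ : μ = ((BB.card : ℝ≥0∞)⁻¹) • ∑ b ∈ BB, μ.map (aff b))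
    (hν : ν = ((BB.card : ℝ≥0∞)⁻¹) • ∑ b ∈ BB, ν.map (aff b)) : μ = ν := by
  refine Measure.ext_of_charFunDual (funext fun L => ?_)
  have hstep : ∀ L : StrongDual ℝ (Fin 14 → ℝ), ‖charFunDual μ L - charFunDual ν L‖ ≤
      ‖charFunDual μ (L.comp ainv) - charFunDual ν (L.comp ainv)‖ := by
    intro L
    rw [charFun_rec μ hμ L, charFun_rec ν hν L, ← mul_sub, norm_mul]
    exact mul_le_of_le_one_left (norm_nonneg _) (norm_coef L)
  have hk : ∀ k : ℕ, ‖charFunDual μ L - charFunDual ν L‖ ≤
      ‖charFunDual μ (pull L k) - charFunDual ν (pull L k)‖ := by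
    intro k
    induction k with
    | zero =>
      have h0 : pull L 0 = L := by
        ext x
        rw [pull_apply]
        rfl
      rw [h0]
    | succ k ih =>
      refine ih.trans ?_
      rw [pull_succ]
      exact (hstep _).trans (hstep _)
  have hlim : Tendsto (fun k : ℕ => ‖charFunDual μ (pull L k) - charFunDual ν (pull L k)‖) atTop
      (𝓝 0) := by
    have := ((charFun_tendsto μ L).sub (charFun_tendsto ν L)).norm
    simpa using this
  have h0 : ‖charFunDual μ L - charFunDual ν L‖ ≤ 0 := ge_of_tendsto' hlim hk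
  exact sub_eq_zero.mp (norm_le_zero_iff.mp h0)

end Pool.Agent.Lib.MP_5f557b_an
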